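import Pool.Agent.J6H88.LcSys.Sparse
import Pool.Agent.TH710.ND.Dich

/-!
Weak abundance for log canonical pairs over systems of nested sums of high powers of monomials.
-/

set_option autoImplicit false

open FF MvPolynomial Pool.Agent.W603.LV Pool.Agent.W602.GT Pool.Agent.TH710.ND
open Pool.Agent.Y172 (NormalModel IsPrimeDivisor Effective Integral LogCanonical kodairaDim
  numericalDim)

namespace Pool.Agent.J6H88.LcSys

section spec

variable {k K : Type} [Field k] [Field K] [Algebra k K] {σ : Type}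
  {Bd : Place k K → Prop} {N s c : ℕ} {o : Place k K → ℤ}
  {Lf : MvPolynomial σ k → Prop} {y : σ → K}

variable {M : Type} [CommRing M] [Algebra k M] [Algebra K M] [IsScalarTower k K M] {x : σ → M}

/-- **Gates**, with a condition on the linked leaves. -/
theorem gate_rel2 (hE0 : ∀ p, Lf p → aeval y p = 0 → aeval x p = 0)
    (hE : ∀ (c' : ℕ) (A : CFam k K), Gen Bd N s c o Lf y c' A → ∀ p q, Lf p → Lf q →
      aeval y p ≠ 0 → aeval y q ≠ 0 → Lk Bd A (aeval y p) (aeval y q) →
      aeval x p * algebraMap K M (aeval y q) = algebraMap K M (aeval y p) * aeval x q)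
    (L : List (ℕ × ℕ)) : Big N s L →
    (L.length * (s * s) ≤ c → ∀ p, GateL Lf L p → aeval y p = 0 → aeval x p = 0) ∧
    (∀ (c' : ℕ) (A : CFam k K), Gen Bd N s c o Lf y c' A → c' + L.length * (s * s) ≤ c →
      ∀ p q, GateL Lf L p → GateL Lf L q → aeval y p ≠ 0 → aeval y q ≠ 0 →
        Lk Bd A (aeval y p) (aeval y q) →
        aeval x p * algebraMap K M (aeval y q) = algebraMap K M (aeval y p) * aeval x q) := by
  induction L with
  | nil =>
    intro _
    exact ⟨fun _ p hp => hE0 p hp, fun c' A hA _ p q hp hq h1 h2 h3 =>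
      hE c' A hA p q hp hq h1 h2 h3⟩
  | cons ke L ih =>
    intro hL
    obtain ⟨hks, hN, he0⟩ := hL.head
    obtain ⟨ihz, ihp⟩ := ih hL.tail
    constructor
    · rintro hc p ⟨a, g, hg, rfl⟩ h
      rw [List.length_cons] at hc
      have hc1 : 0 + s * s + L.length * (s * s) ≤ c := by nlinarith
      have hc2 : L.length * (s * s) ≤ c := by nlinarith
      rw [aeval_sum_pow] at h ⊢
      have h1 := pow_terms (o := o) (Gen.empty (Lf := Lf)) hL.tail hN he0 hc1
        (fun i => algebraMap k K (a i)) g x h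
        (by rw [Fintype.card_fin]; omega) (fun j => Term.gate _ _ (hg j))
        (fun j hj => ⟨fun P _ _ => ord_alg P hj, fun W _ _ => W.algebraMap_mem _⟩)
        (fun j hj => ihz hc2 (g j) (hg j) hj)
        (fun B hB i j hi hj hl => ihp _ B hB (by nlinarith) (g i) (g j) (hg i) (hg j) hi hj hl)
      simp only [← IsScalarTower.algebraMap_apply] at h1
      exact h1
    · rintro c' A hA hc p q hp hq hp0 hq0 hl
      obtain ⟨a, g, hg, hpe⟩ := hp
      obtain ⟨b, g', hg', hqe⟩ := hq
      rw [List.length_cons] at hc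
      have hc1 : c' + s * s + L.length * (s * s) ≤ c := by nlinarith
      have hc2 : L.length * (s * s) ≤ c := by nlinarith
      set lam : K := aeval y p / aeval y q with hlam
      have hlam0 : lam ≠ 0 := div_ne_zero hp0 hq0
      let G : Fin ke.1 ⊕ Fin ke.1 → MvPolynomial σ k := Sum.elim g g'
      have hG : ∀ i, GateL Lf L (G i) := by
        rintro (i | i)
        · exact hg i
        · exact hg' i
      let κ : Fin ke.1 ⊕ Fin ke.1 → K :=
        Sum.elim (fun i => algebraMap k K (a i)) (fun i => -lam * algebraMap k K (b i))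
      have hval : ∑ i, κ i * aeval y (G i) ^ ke.2 = aeval y p - lam * aeval y q := by
        rw [hpe, hqe, aeval_sum_pow, aeval_sum_pow, Fintype.sum_sum_type, Finset.mul_sum,
          sub_eq_add_neg, ← Finset.sum_neg_distrib]
        congr 1
        exact Finset.sum_congr rfl fun i _ => by
          simp only [κ, G, Sum.elim_inr]; ring
      have hval' : ∑ i, algebraMap K M (κ i) * aeval x (G i) ^ ke.2 =
          aeval x p - algebraMap K M lam * aeval x q := by
        rw [hpe, hqe, aeval_sum_pow, aeval_sum_pow, Fintype.sum_sum_type, Finset.mul_sum,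
          sub_eq_add_neg, ← Finset.sum_neg_distrib]
        congr 1
        · exact Finset.sum_congr rfl fun i _ => by
            simp only [κ, G, Sum.elim_inl]
            rw [← IsScalarTower.algebraMap_apply]
        · exact Finset.sum_congr rfl fun i _ => by
            simp only [κ, G, Sum.elim_inr]
            rw [map_mul, map_neg, ← IsScalarTower.algebraMap_apply]
            ring
      have h1 := pow_terms hA hL.tail hN he0 hc1 κ G x
        (by rw [hval, hlam, div_mul_cancel₀ _ hq0, sub_self])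
        (by rw [Fintype.card_sum, Fintype.card_fin]; omega)
        (by
          rintro (i | i)
          · exact Term.gate _ _ (hg i)
          · exact Term.ratio ke.1 p q hks ⟨a, g, hg, hpe⟩ ⟨b, g', hg', hqe⟩ hp0 hq0 hl _ _ (hg' i))
        (by
          rintro (i | i) hi
          · exact ⟨fun P _ _ => ord_alg P hi, fun W _ _ => W.algebraMap_mem _⟩
          · change -lam * algebraMap k K (b i) ≠ 0 at hi
            have hb' : algebraMap k K (b i) ≠ 0 := right_ne_zero_of_mul hi
            refine ⟨fun P hP hPA => ?_, fun W hR hAW => ?_⟩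
            · change P.ord (-lam * algebraMap k K (b i)) = 0
              have hlo : P.ord lam = 0 := by
                rw [hlam, P.ord_div hp0 hq0, hl.1 P hP hPA, sub_self]
              rw [P.ord_mul (neg_ne_zero.2 hlam0) hb', P.ord_neg, hlo, ord_alg P hb', add_zero]
            · exact mul_mem (neg_mem (hl.2 W hR hAW)) (W.algebraMap_mem _))
        (fun j hj => ihz hc2 (G j) (hG j) hj)
        (fun B hB i j hi hj hl' => ihp _ B hB (by nlinarith) (G i) (G j) (hG i) (hG j) hi hj hl')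
      rw [hval', sub_eq_zero, hlam] at h1
      rw [h1, mul_right_comm, ← map_mul, div_mul_cancel₀ _ hq0]

/-- **Specialisations of nested sums.** -/
theorem nested_spec {ι : Type} {F : ι → MvPolynomial σ k} {h : ℕ}
    (hF : ∀ i, NestedIn Lf s N h (F i)) (hN1 : 1 ≤ N) (hmem : ∀ i, aeval y (F i) = 0)
    (hE0 : ∀ p, Lf p → aeval y p = 0 → aeval x p = 0)
    (hE : ∀ (c' : ℕ) (A : CFam k K),
      Gen Bd N (2 * s) ((h + 1) * (2 * s * (2 * s))) (fun _ => 0) Lf y c' A → ∀ p q, Lf p → Lf q →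
      aeval y p ≠ 0 → aeval y q ≠ 0 → Lk Bd A (aeval y p) (aeval y q) →
      aeval x p * algebraMap K M (aeval y q) = algebraMap K M (aeval y p) * aeval x q) :
    ∀ i, aeval x (F i) = 0 := by
  intro i
  obtain ⟨r, e, L, c, g, hr, he, hL1, hL2, hg, hFe⟩ := hF i
  have hbig : Big N (2 * s) L := by
    intro ke hke
    obtain ⟨h1, h2, h3⟩ := hL2 ke hke
    exact ⟨by omega, h3, by omega⟩
  have hlen : 0 + 2 * s * (2 * s) + L.length * (2 * s * (2 * s)) ≤
      (h + 1) * (2 * s * (2 * s)) := by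
    nlinarith [Nat.mul_le_mul_right (2 * s * (2 * s)) hL1]
  have hlen' : L.length * (2 * s * (2 * s)) ≤ (h + 1) * (2 * s * (2 * s)) :=
    Nat.mul_le_mul_right _ (by omega)
  obtain ⟨ihz, ihp⟩ := gate_rel2 (o := fun _ => 0) hE0 hE L hbig
  have h4 := pow_terms (o := fun _ => 0) (Bd := Bd) (N := N) (Gen.empty (Lf := Lf)) hbig
    he (by omega) hlen
    (fun i => algebraMap k K (c i)) g x (by
      have h2 := hmem i
      rw [hFe, aeval_sum_pow] at h2
      exact h2) (by rw [Fintype.card_fin]; omega) (fun j => Term.gate _ _ (hg j))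
    (fun j hj => ⟨fun P _ _ => ord_alg P hj, fun W _ _ => W.algebraMap_mem _⟩)
    (fun j hj => ihz hlen' (g j) (hg j) hj)
    (fun B hB i j hi hj hl => ihp _ B hB hlen (g i) (g j) (hg i) (hg j) hi hj hl)
  simp only [← IsScalarTower.algebraMap_apply] at h4
  rw [hFe, aeval_sum_pow]
  exact h4

end spec

variable {n : ℕ} {ι : Type} {K : Type} [Field K] [Algebra ℂ K]

/-- the bound for nested sums of depth `H` -/
theorem bnd_eq (h s H : ℕ) : bnd h s H =
    h * ((H + 1) * (2 * s * (2 * s)) * ((2 * s + 1) * ((2 * s - 1) * (2 * s - 2) / 2))) + 1 := by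
  unfold bnd
  rw [Pool.Agent.W603.GX.tn_eq]

/-- nested sums along a one-parameter group which preserves the ratios of the linked leaves -/
theorem nested_orbit {Bd : Place ℂ K → Prop} {F : ι → MvPolynomial (Fin (n + 1)) ℂ} {s M H : ℕ}
    (hF : ∀ e, NestedIn IsMono s M H (F e)) (hM : 1 ≤ M) {z : Fin (n + 1) → K}
    (hmem : ∀ e, val z (F e) = 0) (b : Fin (n + 1) → ℤ)
    (hb : ∀ (c' : ℕ) (A : CFam ℂ K),
      Gen Bd M (2 * s) ((H + 1) * (2 * s * (2 * s))) (fun _ => 0) IsMono z c' A →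
      ∀ (α β : Fin (n + 1) →₀ ℕ) (a c : ℂ), algebraMap ℂ K a * ∏ j, z j ^ α j ≠ 0 →
      algebraMap ℂ K c * ∏ j, z j ^ β j ≠ 0 →
      Lk Bd A (algebraMap ℂ K a * ∏ j, z j ^ α j) (algebraMap ℂ K c * ∏ j, z j ^ β j) →
      ∑ j, (α j : ℤ) * b j = ∑ j, (β j : ℤ) * b j) : InOrbit F z b := by
  intro t ht e
  refine nested_spec (Bd := Bd) (x := fun j => t ^ b j * z j) hF hM hmem ?_ ?_ e
  · rintro p ⟨α, a, rfl⟩ h
    rw [aeval_mono] at h ⊢
    rw [torus_mono z b ht, mul_left_comm, h, mul_zero]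
  · rintro c' A hA p q ⟨α, a, rfl⟩ ⟨β, c, rfl⟩ hp hq hl
    rw [aeval_mono] at hp hq
    rw [aeval_mono, aeval_mono] at hl
    rw [aeval_mono, aeval_mono, aeval_mono, aeval_mono, torus_mono z b ht, torus_mono z b ht,
      hb c' A hA α β a c hp hq hl]
    change algebraMap ℂ K a * (t ^ (∑ j, (β j : ℤ) * b j) * ∏ j, z j ^ α j) *
      (algebraMap ℂ K c * ∏ j, z j ^ β j) = algebraMap ℂ K a * (∏ j, z j ^ α j) *
      (algebraMap ℂ K c * (t ^ (∑ j, (β j : ℤ) * b j) * ∏ j, z j ^ β j))
    ring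

/-- **Weak abundance for log canonical pairs over nested systems.** -/
theorem nested_weak {U : Set (Fin (n + 1))} {F : ι → MvPolynomial (Fin (n + 1)) ℂ}
    {s M H : ℕ} (hF : ∀ e, IsForm (F e) ∧ NestedIn IsMono s M H (F e)) (hM : 1 ≤ M) {w : ℕ}
    {z : Fin (n + 1) → K} (hz : SubVarU U F K w z)
    (hline : ¬ ∃ b, AffOrbit U F z b) {N : ℕ}
    {y : Fin (N + 1) → K} (hy : NormalModel y) {Δ : Place ℂ K → ℚ} (hΔ : Effective y Δ)
    (hLC : LogCanonical y w Δ)
    (hone : ∀ P, IsPrimeDivisor y P → OffU U z P → 1 ≤ Δ P) :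
    ∃ (h p : ℕ) (b : Fin p → Fin (n + 1) → ℤ), h + p = w ∧ (∀ l, InOrbit F z (b l)) ∧
      (∀ c : Fin p → ℤ, (∀ j j', z j ≠ 0 → z j' ≠ 0 →
        ∑ l, c l * b l j = ∑ l, c l * b l j') → c = 0) ∧
      ((∀ P, IsPrimeDivisor y P → ¬ OffU U z P → ((h * ((H + 1) * (2 * s * (2 * s)) *
          ((2 * s + 1) * ((2 * s - 1) * (2 * s - 2) / 2))) + 1 : ℕ) : ℚ) * (1 - Δ P) ≤ M) →
      ∃ κ : ℕ, h ≤ κ ∧ (∀ q, KodGe ℂ K w (OffU U z) q → q ≤ κ) ∧
        kodairaDim y w Δ = (κ : WithBot ℕ) ∧
        ∀ A, Effective y A → Integral y A → numericalDim y w Δ A = (κ : EReal)) := by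
  classical
  have hK : CharZero K := charZero_of_injective_algebraMap (algebraMap ℂ K).injective
  obtain ⟨i0, hi0⟩ := Function.ne_iff.1 hz.ne
  have hi0' : z i0 ≠ 0 := hi0
  obtain ⟨Bd, hBd⟩ : ∃ Bd : Place ℂ K → Prop, ∀ P, ¬ Bd P := ⟨fun _ => False, fun _ h => h⟩
  obtain ⟨G, hG⟩ : ∃ G : CFam ℂ K → Prop, ∀ A, G A ↔ ∃ c',
    Gen Bd M (2 * s) ((H + 1) * (2 * s * (2 * s))) (fun _ => 0) IsMono z c' A :=
    ⟨_, fun _ => Iff.rfl⟩
  have hGok : ∀ A, G A → A.Ok Bd M (2 * s) ((H + 1) * (2 * s * (2 * s))) := by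
    intro A hA
    obtain ⟨c', hA⟩ := (hG A).1 hA
    exact hA.ok.1.mono hA.ok.2
  obtain ⟨h, p, t, u, hhp, ht, hu, hbasis, hkill⟩ := basis_pick hz.dim (Rat G)
    {v | ∃ j, z j ≠ 0 ∧ v = z j / z i0} (by
      rw [coords_gen hz hi0']
      infer_instance)
  choose jj hjj hujj using hu
  choose D b hDt hb1 hb2 hb3 using fun q => torus_weights hi0' hbasis hjj hujj q
  -- the one-parameter groups
  have horbit : ∀ q, InOrbit F z (b q) := by
    intro q
    refine nested_orbit (Bd := Bd) (fun e => (hF e).2) hM hz.mem (b q) ?_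
    intro c' A hA α β a c hp hq hl
    have hAD : A.In (consts (D q)) := fun i a b =>
      hkill (D q) (hDt q) _ ⟨A, (hG A).2 ⟨c', hA⟩, i, a, b, rfl⟩
    have hroot : Root (consts (D q)) := fun v d hd h =>
      Pool.Agent.W603.GY.consts_root (D q) v d hd h
    have h1 : D q ((algebraMap ℂ K a * ∏ j, z j ^ α j) /
        (algebraMap ℂ K c * ∏ j, z j ^ β j)) = 0 := hl.2 _ hroot hAD
    have h2 : D q (algebraMap ℂ K a * ∏ j, z j ^ α j) * (algebraMap ℂ K c * ∏ j, z j ^ β j) =
        (algebraMap ℂ K a * ∏ j, z j ^ α j) * D q (algebraMap ℂ K c * ∏ j, z j ^ β j) := by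
      rw [(D q).leibniz_div] at h1
      rw [smul_eq_zero, or_iff_right (pow_ne_zero 2 (inv_ne_zero hq))] at h1
      simp only [smul_eq_mul] at h1
      linear_combination h1
    rw [der_mon (D q) hp, der_mon (D q) hq] at h2
    have h4 : ∑ j, (α j : K) * (D q (z j) / z j) = ∑ j, (β j : K) * (D q (z j) / z j) := by
      apply mul_left_cancel₀ (mul_ne_zero hp hq)
      linear_combination h2
    have h5 := hb3 q (fun j => (α j : ℤ) - (β j : ℤ)) (by
      push_cast
      simp only [sub_mul, Finset.sum_sub_distrib]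
      rw [h4, sub_self])
    simp only [sub_mul, Finset.sum_sub_distrib] at h5
    exact sub_eq_zero.1 h5
  refine ⟨h, p, b, hhp, horbit, fun c hc => weights_indep hi0' hjj hb1 hb2 c hc, fun horb => ?_⟩
  -- the invariants of the pair
  have hd := (fld_of_kill G ht (hbasis.1.comp Sum.inl Sum.inl_injective) hkill).2.2
  rw [← Pool.Agent.W603.GX.tn_eq] at horb
  have hJ : ∀ P, IsPrimeDivisor y P → ∀ A, G A → A.Const P ∨ ∃ J : ℕ, A.Jump P J ∧
      ((h * ((H + 1) * (2 * s * (2 * s)) * ((2 * s + 1) * tn (2 * s - 1))) + 1 : ℕ) : ℚ) *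
        (1 - Δ P) ≤ J := by
    intro P hP A hA
    rcases (hGok A hA).dich P (hBd P) with h1 | h1
    · exact Or.inl h1
    · right
      refine ⟨M, h1, ?_⟩
      by_cases hoff : OffU U z P
      · have h4 := hone P hP hoff
        exact (mul_nonpos_of_nonneg_of_nonpos (Nat.cast_nonneg _) (by linarith)).trans
          (Nat.cast_nonneg _)
      · exact horb P hP hoff
  obtain ⟨κ, h1, h2, h3⟩ := fam_weak hy hz.dim hΔ hLC G (fun A hA => (hGok A hA).card)
    (fun A hA => (hGok A hA).sz) hd le_rfl hJ (rts_ne hi0') (rts_gen hz hi0' _) (by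
    rintro P hP htriv ⟨j, hj⟩
    by_cases hoff : OffU U z P
    · exact hone P hP hoff
    · exfalso
      obtain ⟨hj1, hj2⟩ := rts_ord hi0' hj
      refine hline (aff_of_place hz.unit hoff hj1 hi0' hj2 fun μ hμ t ht e => ?_)
      have h1 : InOrbit F z (fun j => P.ord (z j)) := by
        refine nested_orbit (Bd := Bd) (fun e => (hF e).2) hM hz.mem _ ?_
        intro c' A hA α β a c hp hq hl
        have h2 := hl.1 P (hBd P) (const_of_triv htriv ((hG A).2 ⟨c', hA⟩))
        rw [ord_mon P hp, ord_mon P hq] at h2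
        exact h2
      obtain ⟨d, hd⟩ := (hF e).1
      have h2 : (fun j => t ^ wts z P μ j * z j) =
          fun j => t ^ (-μ) * (t ^ P.ord (z j) * z j) := by
        funext j
        by_cases hzj : z j = 0
        · rw [hzj]
          ring
        · rw [← mul_assoc, ← zpow_add₀ ht, ← zpow_natCast]
          unfold wts
          rw [if_neg hzj, Int.toNat_of_nonneg (sub_nonneg.2 (hμ j hzj))]
          congr 2
          ring
      rw [h2, val_smul hd, h1 t ht e, mul_zero])
  exact ⟨κ, h1, fun q hq => h2 q (kodaira_of_kod hΔ hone hq), h3⟩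

end Pool.Agent.J6H88.LcSys
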