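import Pool.Agent.J6H88.LcSys.Wr
import Pool.Agent.TH710.ND.CoreU
import Pool.Agent.TH585.SV.Fib9

/-!
Pluricanonical forms along the directions of the base from circuits of functions on the base.
-/

set_option autoImplicit false

open FF Pool.Agent.W603.LV Pool.Agent.W602.GT Pool.Agent.TH710.ND Pool.Agent.TH585.SV

namespace Pool.Agent.J6H88.LcSys

variable {h s : ℕ} {K : Type} [Field K] [Algebra ℂ K] {x : Fin h → K} {u : Fin s → K}
  {Dt : Fin h → Derivation ℂ K K} {Du : Fin s → Derivation ℂ K K}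

theorem mtx_lmat (x : Fin h → K) (hx0 : ∀ q, x q ≠ 0) (E : Fin h → Derivation ℂ K K) :
    (mtx x E).det = (∏ j, x j) * (lmat x E).det := by
  rw [← Matrix.det_mul_row]
  congr 1
  ext i j
  simp only [mtx, Matrix.of_apply, lmat]
  have := hx0 j
  field_simp

/-- **Forms on the base.** -/
theorem base_form (Fr : Frame x u Dt Du) {I : Type} [Fintype I] {m : I → ℕ}
    (T : ∀ i, Fin (m i + 1) → K)
    (hT : ∀ i j, T i j ≠ 0) (hsum : ∀ i, ∑ j, T i j = 0)
    (hlin : ∀ i, LinearIndependent ℂ (fun l => T i ((Fin.last (m i)).succAbove l)))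
    (hHz : ∀ i j, Hz Du (T i j)) :
    ∃ g : (I → K) → K, (∀ c, (∀ i, ∃ j, c i = T i j) → g c ≠ 0) ∧
      (∀ c c', g c * ∏ i, c' i = g c' * ∏ i, c i) ∧
      ∀ (P : Place ℂ K) (E : Fin h → Derivation ℂ K K), (∀ i, DerReg P (E i)) →
        ∀ c : I → K, (∀ i, ∃ j, c i = T i j) →
        (((∀ i j l, P.ord (T i j) = P.ord (T i l)) ∧ ∀ q, P.ord (x q) = 0) →
          Ge P 0 ((mtx x E).det ^ (wtI m + 1) * g c)) ∧
        ∀ J : ℤ, (∃ i j l, J ≤ |P.ord (T i j) - P.ord (T i l)|) →
          Ge P (J - (wtI m + 1 : ℕ)) ((mtx x E).det ^ (wtI m + 1) * g c) := by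
  classical
  have hbas := Fr.bas.comp_equiv (finSumFinEquiv (m := h) (n := s)).symm
  obtain ⟨lam, hlam⟩ := exists_lam ℂ (h + s)
  obtain ⟨D0, hD0⟩ := exists_der _ hbas
    (fun j => algebraMap ℂ K (lam j) * (Sum.elim x u ∘ (finSumFinEquiv (m := h) (n := s)).symm) j)
  have hx0 : ∀ q, x q ≠ 0 := fun q => Fr.bas.1.ne_zero (Sum.inl q)
  obtain ⟨lx, hlx⟩ : ∃ lx : Fin h → ℂ, ∀ j, lx j = lam (finSumFinEquiv (Sum.inl j)) :=
    ⟨_, fun _ => rfl⟩
  have hD0x : ∀ j, D0 (x j) = algebraMap ℂ K (lx j) * x j := by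
    intro j
    have h1 := hD0 (finSumFinEquiv (Sum.inl j))
    simp only [Function.comp_apply, Equiv.symm_apply_apply, Sum.elim_inl] at h1
    rw [h1, hlx]
  have hconst : ∀ z, D0 z = 0 → ∃ c : ℂ, z = algebraMap ℂ K c := fun z hz =>
    const_of_der _ hbas lam hlam D0 hD0 hz
  have heta0 : ∀ i, eta D0 (T i) ≠ 0 := fun i =>
    div_ne_zero (wr_ne hconst _ (hlin i)) (Finset.prod_ne_zero_iff.2 fun j _ => hT i j)
  have hGG0 : ∀ c : I → K, (∀ i, ∃ j, c i = T i j) → GI T D0 c ≠ 0 := fun c hc =>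
    Finset.prod_ne_zero_iff.2 fun i _ => mul_ne_zero (mul_ne_zero (pow_ne_zero _ (heta0 i))
      (Finset.prod_ne_zero_iff.2 fun j _ => hT i j)) (by
        obtain ⟨j, hj⟩ := hc i
        rw [hj]
        exact hT i j)
  have hpt : (∏ j, x j) ≠ 0 := Finset.prod_ne_zero_iff.2 fun j _ => hx0 j
  -- the horizontal functions are stable
  have hxS : ∀ j, Hz Du (x j) := fun j i => by
    rw [Fr.ut]
  have hD0S : ∀ f ∈ {f : K | Hz Du f}, D0 f ∈ {f : K | Hz Du f} := by
    intro f hf
    have hf' : Hz Du f := hf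
    obtain ⟨L, hL⟩ := Hz.field (Du := Du)
    change Hz Du (D0 f)
    rw [← hL, Fr.eq D0 f]
    refine add_mem (sum_mem fun j _ => mul_mem ?_ ?_) (sum_mem fun l _ => ?_)
    · rw [hD0x]
      exact mul_mem (L.algebraMap_mem _) ((hL _).2 (hxS j))
    · exact (hL _).2 (Fr.hz hf' j)
    · rw [hf' l, mul_zero]
      exact zero_mem _
  have hrel : ∀ E : Fin h → Derivation ℂ K K, ∀ f ∈ {f : K | Hz Du f},
      con x lx E f = (lmat x E).det * D0 f := by
    intro E f hf
    have hf' : Hz Du f := hf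
    rw [Fr.eq (con x lx E) f, Fr.eq D0 f]
    have h1 : ∀ l, Du l f = 0 := hf'
    simp only [h1, mul_zero, Finset.sum_const_zero, add_zero]
    rw [Finset.mul_sum]
    refine Finset.sum_congr rfl fun j _ => ?_
    rw [con_t x lx E hx0 j, hD0x]
    ring
  set N := wtI m + 1 with hN
  refine ⟨fun c => GI T D0 c / (∏ j, x j) ^ N, fun c hc => div_ne_zero (hGG0 _ hc)
    (pow_ne_zero _ hpt), ?_, ?_⟩
  · intro c c'
    have h1 : ∀ c : I → K, GI T D0 c =
        (∏ i, eta D0 (T i) ^ (m i + 2) * ∏ j, T i j) * ∏ i, c i := by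
      intro c
      unfold GI
      rw [Finset.prod_mul_distrib]
    beta_reduce
    rw [h1 c, h1 c']
    ring
  · intro P E hE c hc
    have hmin : ∀ i, ∃ b' : Fin (m i + 1), ∀ j, P.ord (T i b') ≤ P.ord (T i j) := fun i =>
      Finite.exists_min _
    choose b' hb' using hmin
    have hkey : (mtx x E).det ^ N * (GI T D0 c / (∏ j, x j) ^ N)
          = GI T (con x lx E) c * (lmat x E).det := by
      have h1 := GI_rel (T := T) hD0S (hrel E) hHz c
      rw [h1, mtx_lmat x hx0, mul_pow, hN, pow_succ ((lmat x E).det)]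
      field_simp
    refine ⟨fun hP => ?_, fun J hJ => ?_⟩
    · obtain ⟨hall, hx1⟩ := hP
      rw [hkey]
      have hE' := con_reg x lx E hE hx0 hx1
      have h1 := ge_GI T (E := con x lx E) hT hb' (ε := 0) (fun i => by
        rw [zero_mul, sub_zero]
        exact eta_reg hE' (hT i) (hsum i) (b' i) (fun j => hall i j _)) (x := c) hc
      have h2 := h1.mul (ge_lmat_reg x hx0 hx1 E hE)
      refine h2.mono ?_
      rw [zero_mul, sub_zero, add_zero]
      exact Finset.sum_nonneg fun i _ => Finset.sum_nonneg fun j _ => sub_nonneg.2 (hb' i j)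
    · obtain ⟨i0, j0, l0, hij⟩ := hJ
      rw [hkey]
      have h1 := ge_GI T (E := con x lx E) hT hb' (ε := 1) (fun i => by
        have hE' : ∀ z : K, z ≠ 0 → Ge P (-1) (con x lx E z / z) := fun z hz =>
          con_pole x lx E hE hx0 hz
        exact eta_log hE' (hT i) (hsum i) (b' i)) (x := c) hc
      have h2 := h1.mul (det_log E hE x hx0)
      refine h2.mono ?_
      rw [one_mul]
      have h5 : ∃ j, J ≤ P.ord (T i0 j) - P.ord (T i0 (b' i0)) := by
        have e1 := hb' i0 j0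
        have e2 := hb' i0 l0
        rcases abs_cases (P.ord (T i0 j0) - P.ord (T i0 l0)) with ⟨h, -⟩ | ⟨h, -⟩
        · exact ⟨j0, by linarith⟩
        · exact ⟨l0, by linarith⟩
      obtain ⟨j1, h6⟩ := h5
      have h3 : P.ord (T i0 j1) - P.ord (T i0 (b' i0))
          ≤ ∑ i, ∑ j, (P.ord (T i j) - P.ord (T i (b' i))) := by
        refine le_trans ?_ (Finset.single_le_sum
          (f := fun i => ∑ j, (P.ord (T i j) - P.ord (T i (b' i))))
          (fun i _ => Finset.sum_nonneg fun j _ => sub_nonneg.2 (hb' i j)) (Finset.mem_univ i0))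
        exact Finset.single_le_sum (f := fun j => P.ord (T i0 j) - P.ord (T i0 (b' i0)))
          (fun j _ => sub_nonneg.2 (hb' i0 j)) (Finset.mem_univ j1)
      rw [hN]
      push_cast
      linarith

end Pool.Agent.J6H88.LcSys
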