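import Pool.Agent.Y191.Weak

/-!
Weak abundance from sections of the base, with lower bounds for the Kodaira dimension.
-/

set_option autoImplicit false
set_option linter.unusedSectionVars false

open FF Pool.Agent.W602.GT Pool.Agent.W603.LV Pool.Agent.TH122.AB Pool.Agent.TH585.SV
open Pool.Agent.Y172 Pool.Agent.Y191 Pool.Agent.TH766.MC

namespace Pool.Agent.J6H88.LcSys

variable {K : Type} [Field K] [Algebra ℂ K] {N : ℕ} {y : Fin (N + 1) → K} {n : ℕ}

/-- independent forms and upper bounds of the number of sections -/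
theorem le_of_up {k q : ℕ} {Δ : Place ℂ K → ℚ}
    {D : Fin n → Derivation ℂ K K} (hD : IsFrame D)
    (hup : ∃ C : ℕ, ∀ m : ℕ, 1 ≤ m → ∀ (r : ℕ) (f : Fin r → K),
      LinearIndependent ℂ f → (∀ i, ∃ ω, Y172.IsSection y n m (m • Δ) ω ∧ ω D = f i) →
      r ≤ C * m ^ k)
    {m0 : ℕ} (hm0 : 1 ≤ m0) {ω : Fin (q + 1) → (Fin n → Derivation ℂ K K) → K}
    (hω : ∀ j, Y172.IsSection y n m0 (m0 • Δ) (ω j)) {E : Fin n → Derivation ℂ K K}
    (hE : ω 0 E ≠ 0) (hind : AlgebraicIndependent ℂ (fun i : Fin q => ω i.succ E / ω 0 E)) :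
    q ≤ k := by
  classical
  obtain ⟨C, hC⟩ := hup
  by_contra hcon
  push Not at hcon
  have hkey : ∀ t : ℕ, (t + 1) ^ q ≤ C * (((q + 1) * (t + 1)) * m0) ^ k := by
    intro t
    let T := (q + 1) * (t + 1)
    have htM : 1 ≤ T * m0 := Nat.mul_pos (Nat.mul_pos (Nat.succ_pos q) (Nat.succ_pos t)) hm0
    obtain ⟨hfin, hle0⟩ := finite_h0 hD (hC (T * m0) htM)
    let b : (Fin q → Fin (t + 1)) → Fin (q + 1) → ℕ := fun a =>
      Fin.cons (T - ∑ i, (a i : ℕ)) fun i => (a i : ℕ)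
    have hle : ∀ a : Fin q → Fin (t + 1), ∑ i, (a i : ℕ) ≤ T := by
      intro a
      have h1 : ∑ i, (a i : ℕ) ≤ ∑ _i : Fin q, (t + 1) :=
        Finset.sum_le_sum fun i _ => (a i).2.le
      rw [Finset.sum_const, Finset.card_univ, Fintype.card_fin, smul_eq_mul] at h1
      exact h1.trans (Nat.mul_le_mul_right _ (Nat.le_succ q))
    have hsum : ∀ a, ∑ i, b a i = T := by
      intro a
      rw [Fin.sum_univ_succ]
      simp only [b, Fin.cons_zero, Fin.cons_succ]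
      exact Nat.sub_add_cancel (hle a)
    let v : (Fin q → Fin (t + 1)) → (Fin n → Derivation ℂ K K) → K := fun a E =>
      ∏ i, ω i E ^ b a i
    have hv : ∀ a, Y172.IsSection y n (T * m0) ((T * m0) • Δ) (v a) := by
      intro a
      have h1 := isSection_prod hω (b a)
      rw [hsum] at h1
      rw [smul_smul] at h1
      exact h1
    have hvE : ∀ a, v a E = ω 0 E ^ T * ∏ i : Fin q, (ω i.succ E / ω 0 E) ^ (a i : ℕ) := by
      intro a
      change ∏ i, ω i E ^ b a i = _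
      rw [Fin.prod_univ_succ]
      simp only [b, Fin.cons_zero, Fin.cons_succ, div_pow, Finset.prod_div_distrib]
      have h1 : ω 0 E ^ T = ω 0 E ^ (T - ∑ i, (a i : ℕ)) * ∏ i, ω 0 E ^ (a i : ℕ) := by
        rw [Finset.prod_pow_eq_pow_sum, ← pow_add, Nat.sub_add_cancel (hle a)]
      rw [h1]
      have h2 : ∏ i, ω 0 E ^ (a i : ℕ) ≠ 0 := Finset.prod_ne_zero_iff.2 fun i _ => pow_ne_zero _ hE
      field_simp
    have hvind : LinearIndependent ℂ v := by
      have h1 : LinearIndependent ℂ fun a : Fin q → Fin (t + 1) =>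
          ∏ i : Fin q, (ω i.succ E / ω 0 E) ^ (a i : ℕ) :=
        (mono_indep hind).comp (fun (a : Fin q → Fin (t + 1)) i => (a i : ℕ)) (by
          intro a a' h
          funext i
          exact Fin.ext (congrFun h i))
      have h2 : LinearIndependent ℂ fun a => v a E := by
        have h3 := h1.map' (LinearMap.mulLeft ℂ (ω 0 E ^ T)) (by
          rw [LinearMap.ker_eq_bot]
          exact fun a b hab => mul_left_cancel₀ (pow_ne_zero _ hE) hab)
        have h4 : (fun a => v a E) = (LinearMap.mulLeft ℂ (ω 0 E ^ T)) ∘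
            fun a : Fin q → Fin (t + 1) => ∏ i : Fin q, (ω i.succ E / ω 0 E) ^ (a i : ℕ) := by
          funext a
          exact hvE a
        rw [h4]
        exact h3
      exact LinearIndependent.of_comp (LinearMap.proj E) h2
    have h1 := le_h0 hfin hvind hv
    rw [Fintype.card_fun, Fintype.card_fin, Fintype.card_fin] at h1
    exact h1.trans hle0
  obtain ⟨B, hB⟩ : ∃ B, B = C * ((q + 1) * m0) ^ k := ⟨_, rfl⟩
  have h1 := hkey B
  have h2 : (B + 1) ^ (k + 1) ≤ (B + 1) ^ q := Nat.pow_le_pow_right (Nat.succ_pos B) hcon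
  have h3 : C * (((q + 1) * (B + 1)) * m0) ^ k = B * (B + 1) ^ k := by
    have e1 : ((q + 1) * (B + 1)) * m0 = ((q + 1) * m0) * (B + 1) := by ring
    rw [e1, mul_pow, ← mul_assoc, ← hB]
  rw [h3] at h1
  have h4 := h2.trans h1
  rw [pow_succ, mul_comm] at h4
  have h5 := Nat.le_of_mul_le_mul_right h4 (Nat.pow_pos (Nat.succ_pos B))
  omega

/-- sections in terms of real coefficients -/
theorem sec_of_pair (hy : NormalModel y) (hn : Algebra.trdeg ℂ K = n) {Δ : Place ℂ K → ℚ}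
    {m : ℕ} {ω : (Fin n → Derivation ℂ K K) → K}
    (h : PairSec n {P | IsPrimeDivisor y P} (fun P => (Δ P : ℝ)) m ω) :
    Y172.IsSection y n m (m • Δ) ω := by
  refine ⟨h.1, fun P hP G hG => ?_⟩
  rcases h.2 P hP (hP.divisorial hy hn) G hG with h6 | h6
  · exact Or.inl h6
  · right
    have e1 : (m • Δ) P = m * Δ P := by rw [Pi.smul_apply, nsmul_eq_mul]
    rw [e1]
    have h7 : ((-(m * Δ P) : ℚ) : ℝ) ≤ ((P.ord (ω G) : ℚ) : ℝ) := by
      push_cast
      exact h6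
    exact_mod_cast h7

/-- **Weak abundance** from sections of the base: abstract form, with lower bounds. -/
theorem weak_main2 {Δ : Place ℂ K → ℚ} {p r : ℕ}
    (hy : NormalModel y) (hn : Algebra.trdeg ℂ K = n) (hΔ : Effective y Δ)
    (hLC : LogCanonical y n Δ) {F : IntermediateField ℂ K}
    (hd : Algebra.trdeg ℂ F = p)
    (hbase : ∀ s : ℕ, n = p + s → ∀ δ₁ δ₂ : Place ℂ K → ℝ, ∀ lam : ℕ,
      (∀ P ∈ {P | IsPrimeDivisor y P}, δ₁ P + δ₂ P ≤ Δ P) →
      (∀ P ∈ {P | IsPrimeDivisor y P}, (¬ ∀ f ∈ F, f ≠ 0 → P.ord f = 0) → δ₁ P = Δ P) →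
      (∀ P ∈ {P | IsPrimeDivisor y P}, 0 ≤ δ₁ P) →
      ∀ m : ℕ, 0 < m → ∀ θ : Fin (lam + 1) → (Fin s → Derivation F K K) → K,
      (∀ j, FibSec n m {P | IsPrimeDivisor y P} δ₂ F (θ j)) →
      (∃ G, θ 0 G ≠ 0 ∧
        AlgebraicIndependent F (fun i : Fin lam => θ i.succ G / θ 0 G)) →
      KodairaGe n {P | IsPrimeDivisor y P} (fun P => (Δ P : ℝ)) (p + lam))
    {t : Fin r → K} (ht : ∀ j, t j ≠ 0)
    (hgen : IntermediateField.adjoin ℂ ({x : K | IsAlgebraic F x} ∪ Set.range t) = ⊤)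
    (h2 : ∀ P, IsPrimeDivisor y P → (∀ f ∈ F, f ≠ 0 → P.ord f = 0) →
      (∃ j, P.ord (t j) ≠ 0) → 1 ≤ Δ P) :
    ∃ κ : ℕ, p ≤ κ ∧ (∀ q : ℕ, KodairaGe n {P | IsPrimeDivisor y P} (fun P => (Δ P : ℝ)) q →
      q ≤ κ) ∧ kodairaDim y n Δ = (κ : WithBot ℕ) ∧
      ∀ A, Effective y A → Integral y A → numericalDim y n Δ A = (κ : EReal) := by
  classical
  have hess := hy.ess
  -- the fibres
  have hgen' : IntermediateField.adjoin ℂ ((acl ℂ (F : Set K) : Set K) ∪ Set.range t) = ⊤ := by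
    rw [← top_le_iff, ← hgen, IntermediateField.adjoin_le_iff]
    rintro x (hx | hx)
    · exact IntermediateField.subset_adjoin _ _ (Or.inl ((acl_closed (F : Set K)).mem_of_le
        (fun y hy => subset_acl _ hy) hx))
    · exact IntermediateField.subset_adjoin _ _ (Or.inr hx)
  obtain ⟨e, l, M, J, D, u, H, gs⟩ := exists_gs hn ht hgen'
  obtain ⟨B, hB⟩ : ∃ B : MvPolynomial (Fin l) M → Prop, ∀ g, B g ↔ (Irreducible g ∧
      ∀ P, IsPrimeDivisor y P → Adic P u g → 0 < Δ P) := ⟨_, fun _ => Iff.rfl⟩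
  obtain ⟨M1, l', ρ, x, u', fb⟩ := exists_fb hn gs B
  obtain ⟨μ, c, hc, hbas⟩ := full_basis hn gs fb
  -- the dimensions
  have hFe : Algebra.trdeg F K = e := by
    have h3 := gs.bas.cardinalMk_eq_trdeg
    rw [Cardinal.mk_fin] at h3
    exact h3.symm
  have hne : n = p + e := by
    have h3 := trdeg_add_eq ℂ F (A := K)
    rw [hd, hFe, hn] at h3
    exact_mod_cast h3.symm
  have hel : e = l' + (ρ + μ) := by
    have h3 := hbas.cardinalMk_eq_trdeg
    rw [hFe, Cardinal.mk_sum, Cardinal.mk_sum, Cardinal.mk_fin, Cardinal.mk_fin, Cardinal.mk_fin,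
      Cardinal.lift_natCast, Cardinal.lift_natCast, Cardinal.lift_natCast, ← Nat.cast_add,
      Cardinal.lift_natCast, ← Nat.cast_add] at h3
    exact_mod_cast h3.symm
  -- the upper bound
  obtain ⟨E, hE, hEM, hEu⟩ := exists_adapted hn gs.closed gs.ind gs.top
  have hup : ∀ A, Effective y A → ∃ C : ℕ, ∀ m : ℕ, 1 ≤ m → ∀ (r : ℕ) (f : Fin r → K),
      LinearIndependent ℂ f → (∀ i, ∃ ω, Y172.IsSection y n m (m • Δ + A) ω ∧ ω E = f i) →
      r ≤ C * m ^ (p + (ρ + μ)) := by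
    intro A hA
    refine upper hy hn hΔ hLC gs.ind gs.top fb (fun g hg hBg => ?_) hE hEM hEu (by omega) hA
    rw [hB] at hBg
    push Not at hBg
    obtain ⟨P, hP, hPg, hPΔ⟩ := hBg hg
    exact ⟨P, hP, hPg, hPΔ⟩
  -- the coefficients
  let X : Set (Place ℂ K) := {P | IsPrimeDivisor y P}
  have hX : ∀ P, P ∈ X ↔ IsPrimeDivisor y P := fun _ => Iff.rfl
  obtain ⟨tr, htr⟩ : ∃ tr : Place ℂ K → Prop, ∀ P, tr P ↔
      ∀ f ∈ F, f ≠ 0 → P.ord f = 0 := ⟨_, fun _ => Iff.rfl⟩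
  let δ₁ : Place ℂ K → ℝ := fun P => if tr P then 0 else (Δ P : ℝ)
  let δ₂ : Place ℂ K → ℝ := fun P => if tr P then (Δ P : ℝ) else 0
  have hΔ0 : ∀ P ∈ X, (0 : ℝ) ≤ Δ P := fun P hP => by exact_mod_cast hΔ.1 P hP
  have hδ₁ : ∀ P ∈ X, 0 ≤ δ₁ P := by
    intro P hP
    change 0 ≤ if tr P then 0 else (Δ P : ℝ)
    split_ifs
    · exact le_rfl
    · exact hΔ0 P hP
  have hδ₂ : ∀ P ∈ X, 0 ≤ δ₂ P := by
    intro P hP
    change 0 ≤ if tr P then (Δ P : ℝ) else 0
    split_ifs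
    · exact hΔ0 P hP
    · exact le_rfl
  have hδ : ∀ P ∈ X, δ₁ P + δ₂ P ≤ Δ P := by
    intro P _
    change (if tr P then 0 else (Δ P : ℝ)) + (if tr P then (Δ P : ℝ) else 0) ≤ Δ P
    split_ifs <;> simp
  have hδ₂' : ∀ P, (∀ f ∈ F, f ≠ 0 → P.ord f = 0) → δ₂ P = Δ P := fun P hP =>
    if_pos ((htr P).2 hP)
  -- the lower bound
  obtain ⟨m, hm, θ, hθ1, hθ2, hθ3, hθ4⟩ := lower gs fb (X := X) (δ := δ₂) hδ₂
    (by
      rintro P hP ⟨hPF, hPt⟩
      rw [hδ₂' P hPF]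
      exact_mod_cast h2 P hP hPF hPt)
    (by
      intro g hg
      rw [hB] at hg
      refine ⟨hg.1, fun P hP hPg => ?_⟩
      rw [hδ₂' P fun f hf hf0 => hPg.triv f (gs.le hf) hf0]
      exact_mod_cast hg.2 P hP hPg)
    (fun f hf => finite_ord hy hf) hc (by
      have h3 := hbas.1.comp (Sum.inr : Fin ρ ⊕ Fin μ → Fin l' ⊕ (Fin ρ ⊕ Fin μ))
        Sum.inr_injective
      exact h3)
  have hGD : ∀ i, ((Y172.liftD (D i) F (gs.dk i)).restrictScalars ℂ) = D i := by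
    intro i
    ext f
    rfl
  -- the sections
  obtain ⟨m0, hm0, ω, hω, E', h4, h5⟩ := hbase e hne δ₁ δ₂ (ρ + μ) hδ
    (fun P _ hP => if_neg fun h => hP ((htr P).1 h)) hδ₁ m hm
    (fun b G => θ b fun i => (G i).restrictScalars ℂ)
    (by
      intro b
      refine ⟨pluri_restrict (hθ1 b) _, fun P hP _ G hG => ?_⟩
      exact hθ2 b P hP _ (fun i f hf => by
        have : (G i) f = 0 := (G i).map_algebraMap (⟨f, hf⟩ : F)
        exact this) (fun i f hf => hG i f hf))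
    (by
      refine ⟨fun i => Y172.liftD (D i) F (gs.dk i), ?_, ?_⟩
      · simp only [hGD]
        exact hθ3
      · simp only [hGD]
        exact hθ4)
  refine ⟨p + (ρ + μ), Nat.le_add_right _ _, fun q hq => ?_,
    dims hΔ hE hup hm0 (ω := ω) (fun j => sec_of_pair hy hn (hω j)) h4 h5⟩
  obtain ⟨m1, hm1, ω1, hω1, E1, h8, h9⟩ := hq
  have hzero : Effective y (0 : Place ℂ K → ℚ) :=
    ⟨fun _ _ => le_rfl, Set.finite_empty.subset (by rintro P ⟨-, h⟩; exact h rfl)⟩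
  have hup0 := hup 0 hzero
  simp only [add_zero] at hup0
  exact le_of_up hE hup0 hm1 (fun j => sec_of_pair hy hn (hω1 j)) h8 h9

end Pool.Agent.J6H88.LcSys
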