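import Pool.Agent.J6H88.LcSys.Base
import Pool.Agent.J6H88.LcSys.Weak2
import Pool.Agent.W602.GT.KPick

/-!
Weak abundance from families of circuits.
-/

set_option autoImplicit false

open FF Pool.Agent.W603.LV Pool.Agent.W602.GT Pool.Agent.TH710.ND Pool.Agent.TH585.SV
open Pool.Agent.Y172 (NormalModel IsPrimeDivisor Effective Integral LogCanonical kodairaDim
  numericalDim acl acl_closed subset_acl exists_der_ne kills_acl mem_acl)
open Pool.Agent.Y191 (KodairaGe)

namespace Pool.Agent.J6H88.LcSys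

section

variable {k K : Type} [Field k] [Field K] [Algebra k K]

/-- the circuits, divided by their first members -/
def nrm (A : CFam k K) : CFam k K where
  I := A.I
  fin := A.fin
  m := A.m
  T := fun i j => A.T i j / A.T i 0
  ne := fun i j => div_ne_zero (A.ne i j) (A.ne i 0)
  sum := fun i => by rw [← Finset.sum_div, A.sum, zero_div]
  lin := fun i => by
    have h1 := (A.lin i).map' (LinearMap.mulRight k (A.T i 0)⁻¹)
      (LinearMap.ker_eq_bot.2 (mul_left_injective₀ (inv_ne_zero (A.ne i 0))))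
    have h2 : (fun l => A.T i ((Fin.last (A.m i)).succAbove l) / A.T i 0) =
        (LinearMap.mulRight k (A.T i 0)⁻¹) ∘ fun l => A.T i ((Fin.last (A.m i)).succAbove l) := by
      funext l
      rw [div_eq_mul_inv]
      rfl
    rw [h2]
    exact h1

theorem nrm_ord (A : CFam k K) (P : Place k K) (i : A.I) (j : Fin (A.m i + 1)) :
    P.ord ((nrm A).T i j) = P.ord (A.T i j) - P.ord (A.T i 0) :=
  P.ord_div (A.ne i j) (A.ne i 0)

theorem nrm_const {A : CFam k K} {P : Place k K} : (nrm A).Const P ↔ A.Const P := by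
  constructor
  · intro h i j l
    have h1 := h i j l
    rw [nrm_ord, nrm_ord] at h1
    linarith
  · intro h i j l
    rw [nrm_ord, nrm_ord, h i j l]

theorem nrm_jump {A : CFam k K} {P : Place k K} {J : ℕ} : (nrm A).Jump P J ↔ A.Jump P J := by
  unfold CFam.Jump
  constructor
  · rintro ⟨i, j, l, h⟩
    refine ⟨i, j, l, ?_⟩
    rw [nrm_ord, nrm_ord, sub_sub_sub_cancel_right] at h
    exact h
  · rintro ⟨i, j, l, h⟩
    refine ⟨i, j, l, ?_⟩
    rw [nrm_ord, nrm_ord, sub_sub_sub_cancel_right]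
    exact h

end

section

variable {h s : ℕ} {K : Type} [Field K] [Algebra ℂ K] {x : Fin h → K} {u : Fin s → K}
  {Dt : Fin h → Derivation ℂ K K} {Du : Fin s → Derivation ℂ K K}

/-- **Sections from families of circuits and forms along the fibres.** -/
theorem fam_kod (Fr : Frame x u Dt Du) {L : IntermediateField ℂ K} (hL : ∀ f ∈ L, Hz Du f)
    (hxL : ∀ j, x j ∈ L) (A : Fin h → CFam ℂ K) (i : ∀ j, (A j).I)
    (a b : ∀ j, Fin ((A j).m (i j) + 1))
    (hab : ∀ j, x j = (A j).T (i j) (a j) / (A j).T (i j) (b j))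
    (hAL : ∀ j i a b, (A j).T i a / (A j).T i b ∈ L) {c q : ℕ}
    (hcard : ∀ j, @Fintype.card (A j).I (A j).fin ≤ c) (hsz : ∀ j i, (A j).m i + 1 ≤ q)
    {X : Set (Place ℂ K)} {δ₁ δ₂ δ : Place ℂ K → ℝ} (hδ : ∀ P ∈ X, δ₁ P + δ₂ P ≤ δ P)
    (hδ₁ : ∀ P ∈ X, 0 ≤ δ₁ P) {B : ℕ} (hB : h * (c * ((q + 1) * tn (q - 1))) + 1 ≤ B)
    (hJ : ∀ P ∈ X, ∀ j, (A j).Const P ∨ ∃ J : ℕ, (A j).Jump P J ∧
      (B : ℝ) * (1 - δ₁ P) ≤ J)
    {m : ℕ} (hm : 0 < m) {lam : ℕ} {θ : Fin (lam + 1) → (Fin s → Derivation L K K) → K}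
    (hθ : ∀ b, FibSec (h + s) m X δ₂ L (θ b))
    (hne : ∃ G, θ 0 G ≠ 0 ∧ AlgebraicIndependent L (fun i : Fin lam => θ i.succ G / θ 0 G)) :
    KodairaGe (h + s) X δ (h + lam) := by
  classical
  let F : CFam ℂ K := CFam.sigma fun j => nrm (A j)
  let _ : Fintype F.I := F.fin
  let y0 : F.I → K := fun z => if z.2 = i z.1 then (nrm (A z.1)).T (i z.1) (b z.1) else F.T z 0
  let y1 : Fin h → F.I → K := fun q z => if z.1 = q ∧ z.2 = i z.1 then
    (nrm (A z.1)).T (i z.1) (a z.1) else y0 z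
  have hy0 : ∀ z, ∃ j, y0 z = F.T z j := by
    rintro ⟨j, z⟩
    by_cases hz : z = i j
    · subst hz
      refine ⟨b j, ?_⟩
      simp only [y0, if_true]
      rfl
    · exact ⟨0, by simp only [y0]; rw [if_neg hz]⟩
  have hy1 : ∀ q z, ∃ j, y1 q z = F.T z j := by
    rintro q ⟨j, z⟩
    by_cases hz : j = q ∧ z = i j
    · obtain ⟨rfl, rfl⟩ := hz
      refine ⟨a j, ?_⟩
      simp only [y1, and_self, if_true]
      rfl
    · obtain ⟨l, hl⟩ := hy0 ⟨j, z⟩
      refine ⟨l, ?_⟩
      rw [← hl]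
      simp only [y1]
      rw [if_neg hz]
  have hy0n : ∀ z, y0 z ≠ 0 := fun z => by
    obtain ⟨j, hj⟩ := hy0 z
    rw [hj]
    exact F.ne z j
  have hcardF : Fintype.card F.I ≤ h * c := by
    have h1 := CFam.sigma_card (fun j => nrm (A j))
    have h2 : ∑ j, @Fintype.card (nrm (A j)).I (nrm (A j)).fin ≤ ∑ _j : Fin h, c :=
      Finset.sum_le_sum fun j _ => hcard j
    rw [Finset.sum_const, Finset.card_univ, Fintype.card_fin, smul_eq_mul] at h2
    exact h1.le.trans h2
  have hwt : wtI F.m + 1 ≤ B := by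
    refine le_trans (Nat.succ_le_succ ?_) hB
    unfold wtI
    calc ∑ z, (F.m z + 2) * tn (F.m z) ≤ ∑ _z : F.I, (q + 1) * tn (q - 1) := by
          refine Finset.sum_le_sum fun z _ => ?_
          have h3 : F.m z + 1 ≤ q := hsz z.1 z.2
          exact Nat.mul_le_mul (by omega) (tn_mono (by omega))
      _ = Fintype.card F.I * ((q + 1) * tn (q - 1)) := by simp
      _ ≤ (h * c) * ((q + 1) * tn (q - 1)) := Nat.mul_le_mul_right _ hcardF
      _ = h * (c * ((q + 1) * tn (q - 1))) := by ring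
  have hab' : ∀ j, x j = (nrm (A j)).T (i j) (a j) / (nrm (A j)).T (i j) (b j) := by
    intro j
    rw [hab j]
    change _ = (A j).T (i j) (a j) / (A j).T (i j) 0 / ((A j).T (i j) (b j) / (A j).T (i j) 0)
    have h1 := (A j).ne (i j) 0
    have h2 := (A j).ne (i j) (b j)
    field_simp
  have hprod : ∀ q : Fin h, ∏ z, y1 q z = (∏ z, y0 z) * x q := by
    intro q
    let z1 : F.I := ⟨q, i q⟩
    have hz : y1 q z1 = (nrm (A q)).T (i q) (a q) := by simp [y1, z1]
    have hz0 : y0 z1 = (nrm (A q)).T (i q) (b q) := by simp [y0, z1]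
    have h5 := (nrm (A q)).ne (i q) (b q)
    have e1 := Finset.mul_prod_erase (Finset.univ : Finset F.I) (y1 q) (Finset.mem_univ z1)
    have e2 := Finset.mul_prod_erase (Finset.univ : Finset F.I) y0 (Finset.mem_univ z1)
    have h4 : ∏ z ∈ (Finset.univ : Finset F.I).erase z1, y1 q z =
        ∏ z ∈ (Finset.univ : Finset F.I).erase z1, y0 z := by
      refine Finset.prod_congr rfl fun z hz => ?_
      have hne := Finset.ne_of_mem_erase hz
      simp only [y1]
      rw [if_neg]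
      rintro ⟨h6, h7⟩
      obtain ⟨j, z⟩ := z
      simp only at h6
      subst h6
      simp only at h7
      subst h7
      exact hne rfl
    rw [← e1, ← e2, hz, hz0, hab' q, h4]
    field_simp
  have hpr0 : ∏ z, y0 z ≠ 0 := Finset.prod_ne_zero_iff.2 fun z _ => hy0n z
  obtain ⟨g, hg0, hgc, hP⟩ := base_form Fr F.T F.ne F.sum F.lin fun z j =>
    hL _ (hAL z.1 z.2 j 0)
  have hgx : ∀ q : Fin h, g y0 * x q = g (y1 q) := by
    intro q
    have h2 := hgc (y1 q) y0
    rw [hprod q] at h2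
    apply mul_right_cancel₀ hpr0
    rw [h2]
    ring
  obtain ⟨w, hw⟩ : ∃ w : Fin (h + 1) → K, w = Fin.cons 1 x := ⟨_, rfl⟩
  have hv : ∀ j : Fin (h + 1), ∃ v : F.I → K, (∀ z, ∃ j, v z = F.T z j) ∧
      g y0 * w j = g v := by
    intro j
    rw [hw]
    refine Fin.cases ⟨y0, hy0, ?_⟩ (fun q => ⟨y1 q, hy1 q, ?_⟩) j
    · rw [Fin.cons_zero, mul_one]
    · rw [Fin.cons_succ, hgx]
  obtain ⟨ω, h1, D, h2, h3⟩ := Fr.pairs (κ := h) (w := w) hL hxL hδ hm
    (fun b => (hθ b).1) (fun P hPX hPd G hG b => (hθ b).2 P hPX hPd G hG) hne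
    (M := wtI F.m + 1) (Nat.succ_pos _) (f := g y0) (hg0 _ hy0) (by rw [hw, Fin.cons_zero])
    (by
      have h3 : (fun i : Fin h => w i.succ) = x := by
        funext i
        rw [hw, Fin.cons_succ]
      rw [h3]
      exact Fr.bas.1.comp Sum.inl Sum.inl_injective)
    (fun j => by
      rw [hw]
      refine Fin.cases ?_ (fun q => ?_) j
      · rw [Fin.cons_zero]
        exact one_mem _
      · rw [Fin.cons_succ]
        exact hxL q)
    (fun P hPX hPd E hE j => by
      obtain ⟨v, hv1, hv2⟩ := hv j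
      rw [hv2]
      obtain ⟨h4, h5⟩ := hP P E hE v hv1
      by_cases hc : ∀ j, (A j).Const P
      · refine ⟨0, h4 ⟨?_, ?_⟩, ?_⟩
        · have h6 : F.Const P := CFam.sigma_const.2 fun j => nrm_const.2 (hc j)
          exact h6
        · intro q
          rw [hab q, P.ord_div ((A q).ne _ _) ((A q).ne _ _), hc q (i q) (a q) (b q), sub_self]
        · have := hδ₁ P hPX
          have h7 : (0 : ℝ) ≤ ((wtI F.m + 1 : ℕ) : ℝ) * δ₁ P := mul_nonneg (Nat.cast_nonneg _) this
          push_cast at h7 ⊢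
          linarith
      · push Not at hc
        obtain ⟨j0, hj0⟩ := hc
        obtain ⟨J, hJ1, hJ2⟩ := (hJ P hPX j0).resolve_left hj0
        obtain ⟨i1, a1, b1, h6⟩ := nrm_jump.2 hJ1
        refine ⟨(J : ℤ) - (wtI F.m + 1 : ℕ), h5 J ⟨⟨j0, i1⟩, a1, b1, h6⟩, ?_⟩
        have h7 : ((wtI F.m + 1 : ℕ) : ℝ) * (1 - δ₁ P) ≤ J := by
          by_cases h8 : 0 ≤ 1 - δ₁ P
          · have h9 : ((wtI F.m + 1 : ℕ) : ℝ) ≤ B := by exact_mod_cast hwt
            exact (mul_le_mul_of_nonneg_right h9 h8).trans hJ2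
          · push Not at h8
            have h9 : ((wtI F.m + 1 : ℕ) : ℝ) * (1 - δ₁ P) ≤ 0 :=
              mul_nonpos_of_nonneg_of_nonpos (Nat.cast_nonneg _) h8.le
            exact h9.trans (Nat.cast_nonneg _)
        push_cast at h7 ⊢
        linarith)
  exact ⟨(wtI F.m + 1) * m, Nat.mul_pos (Nat.succ_pos _) hm, ω, h1, D, h2, h3⟩

open scoped IntermediateField.algebraAdjoinAdjoin in
/-- the transcendence degree of the algebraic closure of a purely transcendental subfield -/
theorem trdeg_acl {m : ℕ} {t : Fin m → K} (ht : AlgebraicIndependent ℂ t) :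
    Algebra.trdeg ℂ (acl ℂ (Set.range t)) = (m : ℕ) := by
  obtain ⟨E, hE⟩ : ∃ E, E = IntermediateField.adjoin ℂ (Set.range t) := ⟨_, rfl⟩
  have hmem : ∀ j, t j ∈ E := fun j => by
    rw [hE]
    exact IntermediateField.subset_adjoin _ _ ⟨j, rfl⟩
  let tE : Fin m → E := fun j => ⟨t j, hmem j⟩
  have h1 : AlgebraicIndependent ℂ tE := AlgebraicIndependent.of_comp E.val ht
  have htop : IntermediateField.adjoin ℂ (Set.range tE) = ⊤ := by
    apply IntermediateField.map_injective E.val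
    rw [IntermediateField.adjoin_map, ← AlgHom.fieldRange_eq_map, IntermediateField.fieldRange_val,
      ← Set.range_comp]
    exact hE.symm
  have h2 : Algebra.IsAlgebraic (IntermediateField.adjoin ℂ (Set.range tE)) E := by
    constructor
    intro z
    have hz : z ∈ IntermediateField.adjoin ℂ (Set.range tE) := by
      rw [htop]
      trivial
    exact isAlgebraic_algebraMap (A := E) (⟨z, hz⟩ : IntermediateField.adjoin ℂ (Set.range tE))
  have h3 : Algebra.IsAlgebraic (Algebra.adjoin ℂ (Set.range tE)) E :=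
    (IsFractionRing.comap_isAlgebraic_iff (A := Algebra.adjoin ℂ (Set.range tE))
      (K := IntermediateField.adjoin ℂ (Set.range tE)) (C := E)).2 h2
  have h4 : IsTranscendenceBasis ℂ tE := h1.isTranscendenceBasis_iff_isAlgebraic.2 h3
  have h5 : Algebra.trdeg ℂ E = (m : ℕ) := by
    rw [← h4.cardinalMk_eq_trdeg, Cardinal.mk_fin]
  have h6 : acl ℂ (Set.range t) = (algebraicClosure E K).restrictScalars ℂ := by
    rw [hE]
    rfl
  rw [h6]
  change Algebra.trdeg ℂ (algebraicClosure E K) = _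
  have i1 : FaithfulSMul ℂ E := (faithfulSMul_iff_algebraMap_injective ℂ E).2
    (algebraMap ℂ E).injective
  have i2 : FaithfulSMul E (algebraicClosure E K) :=
    (faithfulSMul_iff_algebraMap_injective E _).2 (algebraMap E (algebraicClosure E K)).injective
  have h7 : Algebra.trdeg ℂ E + Algebra.trdeg E (algebraicClosure E K) =
      Algebra.trdeg ℂ (algebraicClosure E K) := trdeg_add_eq ℂ E (A := algebraicClosure E K)
  have h8 : Algebra.trdeg E (algebraicClosure E K) = 0 := by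
    have : Algebra.IsAlgebraic E (algebraicClosure E K) := inferInstance
    exact trdeg_eq_zero
  rw [← h7, h8, add_zero, h5]

/-- the ratios of the members of the circuits of the families -/
def Rat (G : CFam ℂ K → Prop) : Set K :=
  {z | ∃ A : CFam ℂ K, G A ∧ ∃ i a b, z = A.T i a / A.T i b}

/-- The field generated by the ratios of the members of the circuits of the families. -/
noncomputable def Fld (G : CFam ℂ K → Prop) : IntermediateField ℂ K :=
  IntermediateField.adjoin ℂ (Rat G)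

theorem fld_le (G : CFam ℂ K → Prop) : Fld G ≤ acl ℂ (Rat G) :=
  Pool.Agent.Y172.adjoin_le_acl _

/-- an independent set of ratios such that derivations which vanish on it vanish on all ratios -/
theorem fld_of_kill {h : ℕ} (G : CFam ℂ K → Prop) {x : Fin h → K} (hx : ∀ i, x i ∈ Rat G)
    (hind : AlgebraicIndependent ℂ x)
    (hkill : ∀ D : Derivation ℂ K K, (∀ i, D (x i) = 0) → ∀ z ∈ Rat G, D z = 0) :
    acl ℂ (Rat G) = acl ℂ (Set.range x) ∧ Algebra.trdeg ℂ (acl ℂ (Rat G)) = h ∧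
      Algebra.trdeg ℂ (Fld G) = h := by
  have hF : acl ℂ (Rat G) = acl ℂ (Set.range x) := by
    apply le_antisymm
    · refine Pool.Agent.Y172.acl_le (acl_closed _) fun z hz => ?_
      change z ∈ acl ℂ (Set.range x)
      by_contra hcon
      obtain ⟨D, hD1, hD2⟩ := exists_der_ne (acl_closed (Set.range x)) hcon
      have h3 := hkill D (fun j => hD1 _ (subset_acl _ ⟨j, rfl⟩)) z hz
      rw [hD2] at h3
      exact one_ne_zero h3
    · refine Pool.Agent.Y172.acl_le (acl_closed _) ?_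
      rintro _ ⟨j, rfl⟩
      exact subset_acl _ (hx j)
  have h1 : Algebra.trdeg ℂ (acl ℂ (Rat G)) = (h : ℕ) := by
    rw [hF]
    exact trdeg_acl hind
  refine ⟨hF, h1, ?_⟩
  obtain ⟨L, hL⟩ : ∃ L, L = IntermediateField.adjoin ℂ (Rat G) := ⟨_, rfl⟩
  change Algebra.trdeg ℂ (IntermediateField.adjoin ℂ (Rat G)) = _
  rw [← hL]
  have h6 : acl ℂ (Rat G) = (algebraicClosure L K).restrictScalars ℂ := by
    rw [hL]
    rfl
  rw [h6] at h1
  change Algebra.trdeg ℂ (algebraicClosure L K) = _ at h1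
  have i1 : FaithfulSMul ℂ L :=
    (faithfulSMul_iff_algebraMap_injective ℂ _).2 (algebraMap ℂ L).injective
  have i2 : FaithfulSMul L (algebraicClosure L K) :=
    (faithfulSMul_iff_algebraMap_injective _ _).2 (algebraMap L (algebraicClosure L K)).injective
  have h7 : Algebra.trdeg ℂ L + Algebra.trdeg L (algebraicClosure L K) =
      Algebra.trdeg ℂ (algebraicClosure L K) :=
    trdeg_add_eq ℂ _ (A := algebraicClosure L K)
  have h8 : Algebra.trdeg L (algebraicClosure L K) = 0 := by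
    have : Algebra.IsAlgebraic L (algebraicClosure L K) := inferInstance
    exact trdeg_eq_zero
  rw [h8, add_zero, h1] at h7
  exact h7

/-- a basis of the ratios -/
theorem fam_basis {n d : ℕ} (hn : Algebra.trdeg ℂ K = n) (G : CFam ℂ K → Prop)
    (hd : Algebra.trdeg ℂ (Fld G) = d) : ∃ (p : ℕ) (x : Fin d → K) (u : Fin p → K),
      d + p = n ∧ (∀ i, x i ∈ Rat G) ∧ IsTranscendenceBasis ℂ (Sum.elim x u) ∧
      acl ℂ (Rat G) = acl ℂ (Set.range x) ∧ Algebra.trdeg ℂ (acl ℂ (Rat G)) = d := by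
  obtain ⟨h, p, x, u, hhp, hx, -, hbasis, hkill⟩ := basis_pick hn (Rat G) Set.univ (by
    have h1 : IntermediateField.adjoin ℂ (Set.univ : Set K) = ⊤ := by
      rw [eq_top_iff]
      intro z _
      exact IntermediateField.subset_adjoin _ _ (Set.mem_univ z)
    rw [h1]
    infer_instance)
  obtain ⟨hF, h1, h2⟩ := fld_of_kill G hx (hbasis.1.comp Sum.inl Sum.inl_injective) hkill
  have h3 : h = d := by
    rw [hd] at h2
    exact_mod_cast h2.symm
  subst h3
  exact ⟨p, x, u, hhp, hx, hbasis, hF, h1⟩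

/-- **Weak abundance from families of circuits.** -/
theorem fam_weak {N n d r c q : ℕ} {y : Fin (N + 1) → K} {Δ : Place ℂ K → ℚ}
    (hy : NormalModel y) (hn : Algebra.trdeg ℂ K = n) (hΔ : Effective y Δ)
    (hLC : LogCanonical y n Δ) (G : CFam ℂ K → Prop)
    (hcard : ∀ A, G A → @Fintype.card A.I A.fin ≤ c) (hsz : ∀ A, G A → ∀ i, A.m i + 1 ≤ q)
    (hd : Algebra.trdeg ℂ (Fld G) = d)
    {B : ℕ} (hB : d * (c * ((q + 1) * tn (q - 1))) + 1 ≤ B)
    (hJ : ∀ P, IsPrimeDivisor y P → ∀ A, G A → A.Const P ∨ ∃ J : ℕ, A.Jump P J ∧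
      (B : ℚ) * (1 - Δ P) ≤ J)
    {t : Fin r → K} (ht : ∀ j, t j ≠ 0)
    (hgen : IntermediateField.adjoin ℂ ({z : K | IsAlgebraic (Fld G) z} ∪ Set.range t) = ⊤)
    (h2 : ∀ P, IsPrimeDivisor y P → (∀ f, IsAlgebraic (Fld G) f → f ≠ 0 → P.ord f = 0) →
      (∃ j, P.ord (t j) ≠ 0) → 1 ≤ Δ P) :
    ∃ κ : ℕ, d ≤ κ ∧ (∀ q : ℕ, KodairaGe n {P | IsPrimeDivisor y P} (fun P => (Δ P : ℝ)) q →
      q ≤ κ) ∧ kodairaDim y n Δ = (κ : WithBot ℕ) ∧
      ∀ A, Effective y A → Integral y A → numericalDim y n Δ A = (κ : EReal) := by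
  classical
  obtain ⟨p, x, u, hhp, hx, hbasis, hF0, htrF⟩ := fam_basis hn G hd
  choose A hA i a b hab using hx
  obtain ⟨F, hF⟩ : ∃ F, F = acl ℂ (Rat G) := ⟨_, rfl⟩
  rw [← hF] at hF0 htrF
  have hS1F : ∀ z ∈ Rat G, z ∈ F := fun z hz => by
    rw [hF]
    exact subset_acl _ hz
  have hxF : ∀ j, x j ∈ F := fun j => by
    rw [hF0]
    exact subset_acl _ ⟨j, rfl⟩
  obtain ⟨Dt, Du, Fr⟩ := exists_frame hbasis
  have hFHz : ∀ f ∈ F, Hz Du f := by
    intro f hf l
    rw [hF0] at hf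
    exact kills_acl (D := Du l) (S := Set.range x) (by
      rintro _ ⟨j, rfl⟩
      exact Fr.ut l j) f hf
  refine weak_main2 (p := d) (F := F) hy hn hΔ hLC htrF ?_ ht ?_ ?_
  · rintro s hs δ₁ δ₂ lam hδ hδ1 hδ0 m hm θ hθ hne
    obtain rfl : s = p := by omega
    subst hhp
    refine fam_kod Fr hFHz hxF A i a b hab (fun j i a b => hS1F _ ⟨A j, hA j, i, a, b, rfl⟩)
      (fun j => hcard _ (hA j)) (fun j => hsz _ (hA j)) hδ hδ0 (B := B) hB ?_ hm hθ hne
    intro P hP j
    rcases hJ P hP (A j) (hA j) with h3 | ⟨J, h3, h4⟩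
    · exact Or.inl h3
    · by_cases hcst : (A j).Const P
      · exact Or.inl hcst
      right
      refine ⟨J, h3, ?_⟩
      have h5 : ¬ ∀ f ∈ F, f ≠ 0 → P.ord f = 0 := by
        intro h6
        apply hcst
        intro i' a' b'
        have h7 := h6 _ (hS1F _ ⟨A j, hA j, i', a', b', rfl⟩)
          (div_ne_zero ((A j).ne _ _) ((A j).ne _ _))
        rw [P.ord_div ((A j).ne _ _) ((A j).ne _ _)] at h7
        linarith
      rw [hδ1 P hP h5]
      exact_mod_cast h4
  · rw [eq_top_iff, ← hgen, IntermediateField.adjoin_le_iff]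
    rintro z (hz | hz)
    · refine IntermediateField.subset_adjoin _ _ (Or.inl ?_)
      have hzF : z ∈ F := by
        rw [hF]
        exact mem_acl.2 hz
      exact isAlgebraic_algebraMap (⟨z, hzF⟩ : F)
    · exact IntermediateField.subset_adjoin _ _ (Or.inr hz)
  · intro P hP hPF hPt
    refine h2 P hP (fun f hf => hPF f ?_) hPt
    rw [hF]
    exact mem_acl.2 hf

/-- at a place which is trivial on the field the orders are constant -/
theorem const_of_triv {G : CFam ℂ K → Prop} {P : Place ℂ K}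
    (h : ∀ f, IsAlgebraic (Fld G) f → f ≠ 0 → P.ord f = 0) {A : CFam ℂ K} (hA : G A) :
    A.Const P := by
  intro i a b
  have h6 : A.T i a / A.T i b ∈ Fld G :=
    IntermediateField.subset_adjoin _ _ ⟨A, hA, i, a, b, rfl⟩
  have h7 := h (A.T i a / A.T i b) (isAlgebraic_algebraMap (⟨_, h6⟩ : Fld G))
    (div_ne_zero (A.ne _ _) (A.ne _ _))
  rw [P.ord_div (A.ne _ _) (A.ne _ _)] at h7
  linarith

/-- derivations which vanish on a basis vanish on the ratios -/
theorem kill_of_basis {G : CFam ℂ K → Prop} {h : ℕ} {x : Fin h → K}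
    (hF : acl ℂ (Rat G) = acl ℂ (Set.range x)) {D : Derivation ℂ K K} (hD : ∀ i, D (x i) = 0) :
    ∀ z ∈ Rat G, D z = 0 := by
  intro z hz
  have h1 : z ∈ acl ℂ (Set.range x) := by
    rw [← hF]
    exact subset_acl _ hz
  exact kills_acl (D := D) (S := Set.range x) (by
    rintro _ ⟨j, rfl⟩
    exact hD j) z h1

end

end Pool.Agent.J6H88.LcSys
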