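import Pool.Agent.J6H88.LcSys.Nested
import Pool.Agent.TH710.ND.MapsLgt

/-!
Weak abundance for log canonical pairs over systems of nested sums of high powers of linear forms.
-/

set_option autoImplicit false

open FF Pool.Agent.W603.LV Pool.Agent.W603.GR Pool.Agent.W603.GW
  Pool.Agent.W602.GT Pool.Agent.W603.GX Pool.Agent.W603.GY Pool.Agent.TH710.ND
open Pool.Agent.Y172 (NormalModel IsPrimeDivisor Effective Integral LogCanonical kodairaDim
  numericalDim acl acl_closed subset_acl mem_acl)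

namespace Pool.Agent.J6H88.LcSys

variable {n : ℕ} {ι κ : Type} {K : Type} [Field K] [Algebra ℂ K]

theorem acl_root (S : Set K) : Root (acl ℂ S) := by
  intro z d hd h
  refine acl_closed S z ?_
  have h1 : IsAlgebraic (acl ℂ S) (z ^ d) :=
    isAlgebraic_algebraMap (⟨z ^ d, h⟩ : acl ℂ S)
  exact h1.of_pow hd

/-- **The coordinates are combinations of the linear forms of the boundary**, if there is no affine
line. -/
theorem span_or_line {F : ι → MvPolynomial (Fin (n + 1)) ℂ} {Q : κ → MvPolynomial (Fin (n + 1)) ℂ}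
    {z : Fin (n + 1) → K} {W : IntermediateField ℂ K} {lq : κ → Fin (n + 1) → ℂ}
    (hG : Good F Q z (PrC W z) lq) (hoff : ∀ j, val z (Q j) ≠ 0) (hline : ¬ AffLineX F Q z)
    {l0 : Fin (n + 1) → ℂ} (hl0 : lin l0 z ≠ 0) (i : Fin (n + 1)) :
    z i / lin l0 z ∈
      Submodule.span W (insert (1 : K) (Set.range fun j => lin (lq j) z / lin l0 z)) := by
  classical
  by_contra hcon
  obtain ⟨ℓ, hℓ, hℓ0⟩ := Submodule.exists_dual_map_eq_bot_of_notMem hcon inferInstance
  have hℓ1 : ∀ x ∈ (insert (1 : K) (Set.range fun j => lin (lq j) z / lin l0 z)), ℓ x = 0 := by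
    intro x hx
    have h1 : ℓ x ∈ Submodule.map ℓ (Submodule.span W
        (insert (1 : K) (Set.range fun j => lin (lq j) z / lin l0 z))) :=
      Submodule.mem_map_of_mem (Submodule.subset_span hx)
    rw [hℓ0] at h1
    exact (Submodule.mem_bot _).1 h1
  let v : Fin (n + 1) → K := fun i => ((ℓ (z i / lin l0 z) : W) : K)
  have hv : ∀ l : Fin (n + 1) → ℂ, lin l v = ((ℓ (lin l z / lin l0 z) : W) : K) := by
    intro l
    have h0 : lin l z / lin l0 z = ∑ i, algebraMap ℂ W (l i) • (z i / lin l0 z) := by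
      have h1 : ∀ c : K, lin l z / c = ∑ i, algebraMap ℂ W (l i) • (z i / c) := by
        intro c
        unfold lin
        rw [Finset.sum_div]
        refine Finset.sum_congr rfl fun i _ => ?_
        rw [Algebra.smul_def, mul_div_assoc]
        rfl
      exact h1 _
    rw [h0, map_sum]
    have h1 : ∀ i, ℓ (algebraMap ℂ W (l i) • (z i / lin l0 z)) =
        algebraMap ℂ W (l i) * ℓ (z i / lin l0 z) := fun i => by
      rw [map_smul, smul_eq_mul]
    simp only [h1]
    push_cast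
    rfl
  have hvC : LinC (PrC W z) z v := by
    refine ⟨fun l hl => ?_, ?_⟩
    · rw [hv, hl, zero_div, map_zero]
      rfl
    · rintro p ⟨h1, h2, h3⟩
      rw [hv, hv]
      have h4 : lin p.1 z / lin l0 z = (⟨lin p.1 z / lin p.2 z, h3⟩ : W) •
          (lin p.2 z / lin l0 z) := by
        rw [Algebra.smul_def]
        change _ = lin p.1 z / lin p.2 z * (lin p.2 z / lin l0 z)
        field_simp
      rw [h4, map_smul, smul_eq_mul]
      rfl
  have hl0v : lin l0 v = 0 := by
    rw [hv, div_self hl0, hℓ1 1 (Set.mem_insert _ _)]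
    rfl
  have hlqv : ∀ j, lin (lq j) v = 0 := by
    intro j
    rw [hv, hℓ1 _ (Set.mem_insert_of_mem _ ⟨j, rfl⟩)]
    rfl
  have hvi : v i ≠ 0 := by
    change ((ℓ (z i / lin l0 z) : W) : K) ≠ 0
    intro h0
    exact hℓ (by exact_mod_cast h0)
  have hself : LinC (PrC W z) z z := linC_self hG.ne
  apply hline
  refine ⟨v, ?_, fun t => ?_⟩
  · by_contra hall
    push Not at hall
    have h1 : lin l0 z * v i = z i * lin l0 v := by
      unfold lin
      rw [Finset.sum_mul, Finset.mul_sum]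
      refine Finset.sum_congr rfl fun a _ => ?_
      have := hall a i
      linear_combination algebraMap ℂ K (l0 a) * this
    rw [hl0v, mul_zero] at h1
    exact mul_ne_zero hl0 hvi h1
  · have h1 : LinC (PrC W z) z (fun l => z l + t * v l) := by
      have h2 := hself.comb hvC 1 t
      simpa only [one_mul] using h2
    have h2 : InV (PrC W z) z (fun l => z l + t * v l) := h1.inV
    refine ⟨fun e => hG.van K _ h2 e, fun j => ?_⟩
    rw [hG.lq_val K _ h2 j]
    have h3 : lin (lq j) (fun l => z l + t * v l) = lin (lq j) z := by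
      have h4 := lin_add_smul (lq j) z v 1 t
      rw [hlqv, mul_zero, add_zero, one_mul] at h4
      simpa only [one_mul] using h4
    rw [h3]
    change val z (Q j) / lin (lq j) z ^ (Q j).totalDegree * lin (lq j) z ^ (Q j).totalDegree = _
    rw [div_mul_cancel₀ _ (pow_ne_zero _ (hG.lq_ne j))]

/-- **Weak abundance for log canonical pairs over nested systems of linear forms.** -/
theorem lin_weak [Finite κ] {F : ι → MvPolynomial (Fin (n + 1)) ℂ}
    {Q : κ → MvPolynomial (Fin (n + 1)) ℂ} {s M H : ℕ}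
    (hF : ∀ i, IsNested s M H (F i)) (hQ : ∀ j, IsNested s M H (Q j)) (hM : 1 ≤ M)
    {w : ℕ} {z : Fin (n + 1) → K} (hz : SubVarQ F Q K w z) (hline : ¬ AffLineX F Q z)
    {N : ℕ} {y : Fin (N + 1) → K} (hy : NormalModel y) {Δ : Place ℂ K → ℚ} (hΔ : Effective y Δ)
    (hLC : LogCanonical y w Δ)
    (hone : ∀ P, IsPrimeDivisor y P → OffAny Q z P → 1 ≤ Δ P)
    (horb : ∀ P, IsPrimeDivisor y P → ¬ OffAny Q z P → ((w * ((H + 1) * (2 * s * (2 * s)) *
      ((2 * s + 1) * ((2 * s - 1) * (2 * s - 2) / 2))) + 1 : ℕ) : ℚ) * (1 - Δ P) ≤ M) :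
    ∃ κ' : ℕ, (∀ q, KodGe ℂ K w (OffAny Q z) q → q ≤ κ') ∧
      kodairaDim y w Δ = (κ' : WithBot ℕ) ∧
      ∀ A, Effective y A → Integral y A → numericalDim y w Δ A = (κ' : EReal) := by
  classical
  have hK : CharZero K := charZero_of_injective_algebraMap (algebraMap ℂ K).injective
  have hQh : ∀ j, IsForm (Q j) := fun j => (hQ j).form
  have hQne : ∀ j, Q j ≠ 0 := by
    intro j h0
    apply hz.off j
    rw [h0]
    unfold Pool.Agent.W602.GT.val
    rw [map_zero]
  have hhom : ∀ j, (Q j).IsHomogeneous (Q j).totalDegree := by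
    intro j
    obtain ⟨d, hd⟩ := hQh j
    rw [hd.totalDegree (hQne j)]
    exact hd
  have hdpos : ∀ j, 0 < (Q j).totalDegree := fun j => nested_pos (hQ j) hM (hQne j)
  obtain ⟨o, ho⟩ := exists_o hhom hz.ne hz.off
  obtain ⟨G, hG⟩ : ∃ G : CFam ℂ K → Prop, ∀ A, G A ↔ ∃ c',
    Gen (OffAny Q z) M (2 * s) ((H + 1) * (2 * s * (2 * s))) o IsLin z c' A :=
    ⟨_, fun _ => Iff.rfl⟩
  have hGok : ∀ A, G A → A.Ok (OffAny Q z) M (2 * s) ((H + 1) * (2 * s * (2 * s))) := by
    intro A hA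
    obtain ⟨c', hA⟩ := (hG A).1 hA
    exact hA.ok.1.mono hA.ok.2
  -- the dimension of the field of the ratios
  obtain ⟨d, hd, hdw⟩ : ∃ d : ℕ, Algebra.trdeg ℂ (Fld G) = d ∧ d ≤ w := by
    obtain ⟨h, p, x, u, hhp, hx, -, hbasis, hkill⟩ := basis_pick hz.dim (Rat G) Set.univ (by
      have h1 : IntermediateField.adjoin ℂ (Set.univ : Set K) = ⊤ := by
        rw [eq_top_iff]
        intro z _
        exact IntermediateField.subset_adjoin _ _ (Set.mem_univ z)
      rw [h1]
      infer_instance)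
    exact ⟨h, (fld_of_kill G hx (hbasis.1.comp Sum.inl Sum.inl_injective) hkill).2.2, by omega⟩
  -- the linear forms of the boundary
  obtain ⟨W, hWd⟩ : ∃ W, W = acl ℂ (Rat G) := ⟨_, rfl⟩
  have hroot : Root W := by
    rw [hWd]
    exact acl_root _
  have hWA : ∀ c' A, Gen (OffAny Q z) M (2 * s) ((H + 1) * (2 * s * (2 * s))) o IsLin z c' A →
      A.In W := fun c' A hA i a b => by
    rw [hWd]
    exact subset_acl _ ⟨A, (hG A).2 ⟨c', hA⟩, i, a, b, rfl⟩
  obtain ⟨lq, hGood, hlq⟩ := good_of hF hQ hM hz.mem hz.off ho hroot hWA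
  obtain ⟨i0, hi0'⟩ := Function.ne_iff.1 hz.ne
  have hi0 : z i0 ≠ 0 := hi0'
  obtain ⟨l0, hl0, hl0q⟩ : ∃ l0 : Fin (n + 1) → ℂ, lin l0 z ≠ 0 ∧ ∀ _j : κ, ∃ j', l0 = lq j' := by
    by_cases hne : Nonempty κ
    · obtain ⟨j1⟩ := hne
      exact ⟨lq j1, hGood.lq_ne j1, fun _ => ⟨j1, rfl⟩⟩
    · exact ⟨Pi.single i0 1, by rw [lin_single]; exact hi0, fun j => absurd ⟨j⟩ hne⟩
  obtain ⟨r, ⟨φ⟩⟩ := Finite.exists_equiv_fin κ
  obtain ⟨t, ht⟩ : ∃ t : Fin r → K, ∀ j, t (φ j) = lin (lq j) z / lin l0 z :=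
    ⟨fun a => lin (lq (φ.symm a)) z / lin l0 z, fun j => by
      beta_reduce
      rw [Equiv.symm_apply_apply]⟩
  have ht' : ∀ a, ∃ j, t a = lin (lq j) z / lin l0 z := fun a =>
    ⟨φ.symm a, by rw [← ht, Equiv.apply_symm_apply]⟩
  have ht0 : ∀ a, t a ≠ 0 := by
    intro a
    obtain ⟨j, hj⟩ := ht' a
    rw [hj]
    exact div_ne_zero (hGood.lq_ne j) hl0
  -- generation
  have hgen : IntermediateField.adjoin ℂ ({v : K | IsAlgebraic (Fld G) v} ∪ Set.range t) = ⊤ := by
    obtain ⟨E, hE⟩ : ∃ E, E = IntermediateField.adjoin ℂ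
      ({v : K | IsAlgebraic (Fld G) v} ∪ Set.range t) := ⟨_, rfl⟩
    rw [← hE]
    have hWE : ∀ v ∈ W, v ∈ E := by
      intro v hv
      rw [hE]
      rw [hWd] at hv
      exact IntermediateField.subset_adjoin _ _ (Or.inl (mem_acl.1 hv))
    have htE : ∀ j, lin (lq j) z / lin l0 z ∈ E := by
      intro j
      rw [hE, ← ht]
      exact IntermediateField.subset_adjoin _ _ (Or.inr ⟨_, rfl⟩)
    have hspan : ∀ v ∈ Submodule.span W
        (insert (1 : K) (Set.range fun j => lin (lq j) z / lin l0 z)), v ∈ E := by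
      intro v hv
      induction hv using Submodule.span_induction with
      | mem v hv =>
        rcases hv with rfl | ⟨j, rfl⟩
        · exact one_mem _
        · exact htE j
      | zero => exact zero_mem _
      | add a b _ _ ha hb => exact add_mem ha hb
      | smul c a _ ha =>
        rw [Algebra.smul_def]
        exact mul_mem (hWE _ c.2) ha
    have hz0 : ∀ i, z i / lin l0 z ∈ E := fun i =>
      hspan _ (span_or_line hGood hz.off hline hl0 i)
    rw [eq_top_iff, ← hz.gen]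
    unfold coords
    rw [IntermediateField.adjoin_le_iff]
    rintro _ ⟨i, j, hj, rfl⟩
    have h3 := div_mem (hz0 i) (hz0 j)
    have h4 : z i / lin l0 z / (z j / lin l0 z) = z i / z j := by field_simp
    rwa [h4] at h3
  have hB : d * ((H + 1) * (2 * s * (2 * s)) * ((2 * s + 1) * tn (2 * s - 1))) + 1 ≤
      w * ((H + 1) * (2 * s * (2 * s)) * ((2 * s + 1) * tn (2 * s - 1))) + 1 :=
    Nat.succ_le_succ (Nat.mul_le_mul_right _ hdw)
  rw [← Pool.Agent.W603.GX.tn_eq] at horb
  have hJ : ∀ P, IsPrimeDivisor y P → ∀ A, G A → A.Const P ∨ ∃ J : ℕ, A.Jump P J ∧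
      ((w * ((H + 1) * (2 * s * (2 * s)) * ((2 * s + 1) * tn (2 * s - 1))) + 1 : ℕ) : ℚ) *
        (1 - Δ P) ≤ J := by
    intro P hP A hA
    by_cases hoff : OffAny Q z P
    · by_cases hc : A.Const P
      · exact Or.inl hc
      right
      have hc' := hc
      unfold CFam.Const at hc'
      push Not at hc'
      obtain ⟨i, a, a', h0⟩ := hc'
      refine ⟨0, ⟨i, a, a', by simp⟩, ?_⟩
      have h4 := hone P hP hoff
      rw [Nat.cast_zero]
      exact mul_nonpos_of_nonneg_of_nonpos (Nat.cast_nonneg _) (by linarith)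
    · rcases (hGok A hA).dich P hoff with h1 | h1
      · exact Or.inl h1
      · exact Or.inr ⟨M, h1, horb P hP hoff⟩
  obtain ⟨κ', h1, h2, h3⟩ := fam_weak hy hz.dim hΔ hLC G (fun A hA => (hGok A hA).card)
    (fun A hA => (hGok A hA).sz) hd hB hJ ht0 hgen (by
    rintro P hP htriv ⟨a, ha⟩
    by_contra hcon
    have hoff : ¬ OffAny Q z P := fun h => hcon (hone P hP h)
    have hWt : ∀ f ∈ W, f ≠ 0 → P.ord f = 0 := by
      intro f hf hf0
      rw [hWd] at hf
      exact htriv f (mem_acl.1 hf) hf0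
    have hordl : ∀ j, P.ord (lin (lq j) z) = o P := by
      intro j
      have h4 := hWt _ (hlq j) (div_ne_zero (pow_ne_zero _ (hGood.lq_ne j)) (hz.off j))
      rw [P.ord_div (pow_ne_zero _ (hGood.lq_ne j)) (hz.off j), P.ord_pow, ho P hoff j] at h4
      have h5 : ((Q j).totalDegree : ℤ) ≠ 0 := by exact_mod_cast (hdpos j).ne'
      apply mul_left_cancel₀ h5
      linarith
    apply ha
    obtain ⟨j, hj⟩ := ht' a
    obtain ⟨j', hj'⟩ := hl0q j
    rw [hj, P.ord_div (hGood.lq_ne j) hl0, hj', hordl, hordl, sub_self])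
  exact ⟨κ', fun q hq => h2 q (kodaira_of_kod hΔ hone hq), h3⟩

end Pool.Agent.J6H88.LcSys
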