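import Pool.Agent.W602.GT.NG
import Pool.Agent.W602.GT.KDefs
import Pool.Agent.J6H88.LcSys.Weak2

/-!
Sections with logarithmic poles are sections of the pair.
-/

set_option autoImplicit false

open FF Pool.Agent.W603.LV Pool.Agent.W602.GT
open Pool.Agent.Y172 (NormalModel IsPrimeDivisor Effective Integral LogCanonical kodairaDim
  numericalDim)
open Pool.Agent.Y191 (KodairaGe)

namespace Pool.Agent.J6H88.LcSys

section pole

variable {k K : Type} [Field k] [Field K] [Algebra k K]

/-- A form with a logarithmic pole has a pole of order at most its weight. -/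
theorem pole_of_log {P : Place k K} {w N : ℕ} {ω : (Fin w → Derivation k K K) → K}
    (hω : IsPluri N ω) (hlog : LogAt P ω) {D : Fin w → Derivation k K K}
    (hD : ∀ i, DerReg P (D i)) (h0 : ω D ≠ 0) : -(N : ℤ) ≤ P.ord (ω D) := by
  classical
  obtain ⟨t, ht0, ht⟩ := P.surj
  have htr : P.Reg t := (Place.reg_iff _ ht0).2 (by omega)
  have hNn : (0 : ℤ) ≤ N := Int.natCast_nonneg _
  by_cases hall : ∀ i, P.Reg (D i t / t)
  · have h1 := hlog D fun i => pl_log (hD i) ht (hall i)
    rw [Place.reg_iff _ h0] at h1
    omega
  · push Not at hall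
    obtain ⟨i0, hi0⟩ := hall
    have hDt0 : D i0 t ≠ 0 := by
      intro h
      apply hi0
      rw [h, zero_div]
      exact P.reg_zero
    have hDt : P.ord (D i0 t) = 0 := by
      have h1 := hD i0 t htr
      rw [Place.reg_iff _ hDt0] at h1
      have h2 : ¬ (0 ≤ P.ord (D i0 t / t)) := fun h => hi0 ((Place.reg_iff _
        (div_ne_zero hDt0 ht0)).2 h)
      rw [P.ord_div hDt0 ht0, ht] at h2
      omega
    -- the new frame
    let v : Fin w → K := fun i => if i = i0 then t else -(D i t / D i0 t)
    let A : Matrix (Fin w) (Fin w) K := (1 : Matrix (Fin w) (Fin w) K).updateCol i0 v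
    have hdet : A.det = t := by
      have h1 : A.det = Matrix.cramer (1 : Matrix (Fin w) (Fin w) K) v i0 := by
        rw [Matrix.cramer_apply]
      rw [h1, Matrix.cramer_one]
      simp [v]
    have hsum : ∀ i, (∑ j, A i j • D j) = if i = i0 then t • D i0 else D i + v i • D i0 := by
      intro i
      have hA : ∀ j, A i j = if j = i0 then v i else if i = j then 1 else 0 := by
        intro j
        simp only [A, Matrix.updateCol_apply, Matrix.one_apply]
      split_ifs with hi
      · subst hi
        rw [Finset.sum_eq_single i]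
        · rw [hA]
          simp [v]
        · intro j _ hj
          rw [hA, if_neg hj, if_neg (Ne.symm hj), zero_smul]
        · intro h
          exact absurd (Finset.mem_univ _) h
      · have h1 : ∀ j, A i j • D j = (if i = j then D j else 0) + if j = i0 then v i • D i0 else 0 := by
          intro j
          rw [hA]
          by_cases hj : j = i0
          · subst hj
            rw [if_pos rfl, if_neg hi, if_pos rfl, zero_add]
          · rw [if_neg hj, if_neg hj, add_zero]
            split_ifs
            · rw [one_smul]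
            · rw [zero_smul]
        rw [Finset.sum_congr rfl fun j _ => h1 j, Finset.sum_add_distrib, Finset.sum_ite_eq,
          Finset.sum_ite_eq']
        simp
    have hregv : ∀ i, i ≠ i0 → P.Reg (v i) := by
      intro i hi
      simp only [v, if_neg hi]
      apply P.reg_neg
      by_cases h : D i t = 0
      · rw [h, zero_div]
        exact P.reg_zero
      · have h1 := hD i t htr
        rw [Place.reg_iff _ h] at h1
        rw [Place.reg_iff _ (div_ne_zero h hDt0), P.ord_div h hDt0, hDt]
        omega
    have hlogD : ∀ i, DerLog P (∑ j, A i j • D j) := by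
      intro i
      rw [hsum i]
      split_ifs with hi
      · refine pl_log (τ := t) (fun f hf => ?_) ht ?_
        · rw [Derivation.smul_apply, smul_eq_mul]
          exact P.reg_mul htr (hD i0 f hf)
        · rw [Derivation.smul_apply, smul_eq_mul, mul_div_assoc, mul_div_cancel₀ _ ht0]
          exact hD i0 t htr
      · refine pl_log (τ := t) (fun f hf => ?_) ht ?_
        · rw [Derivation.add_apply, Derivation.smul_apply, smul_eq_mul]
          exact P.reg_add (hD i f hf) (P.reg_mul (hregv i hi) (hD i0 f hf))
        · rw [Derivation.add_apply, Derivation.smul_apply, smul_eq_mul]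
          have h1 : D i t + v i * D i0 t = 0 := by
            simp only [v, if_neg hi]
            field_simp
            ring
          rw [h1, zero_div]
          exact P.reg_zero
    have h1 := hlog _ hlogD
    rw [hω A D, hdet] at h1
    rw [Place.reg_iff _ (mul_ne_zero (pow_ne_zero _ ht0) h0), P.ord_mul (pow_ne_zero _ ht0) h0,
      P.ord_pow, ht] at h1
    linarith

end pole

/-- Logarithmic forms are sections of `N (K_X + Δ)` if the coefficients of `Δ` along the boundary are
at least `1`. -/
theorem kodaira_of_kod {K : Type} [Field K] [Algebra ℂ K] {N n q : ℕ} {y : Fin (N + 1) → K}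
    {Δ : Place ℂ K → ℚ} (hΔ : Effective y Δ) {Bd : Place ℂ K → Prop}
    (hone : ∀ P, IsPrimeDivisor y P → Bd P → 1 ≤ Δ P) (h : KodGe ℂ K n Bd q) :
    KodairaGe n {P | IsPrimeDivisor y P} (fun P => (Δ P : ℝ)) q := by
  obtain ⟨M, hM, ω, h1, h2⟩ := h
  refine ⟨M, hM, ω, fun j => ⟨(h1 j).1, fun P hPX hP D hD => ?_⟩, h2⟩
  by_cases h0 : ω j D = 0
  · exact Or.inl h0
  right
  have hPX' : IsPrimeDivisor y P := hPX
  by_cases hB : Bd P
  · have h5 := pole_of_log (h1 j).1 ((h1 j).2.1 P hP) hD h0
    have h6 : (-(M : ℝ)) ≤ (P.ord (ω j D) : ℝ) := by exact_mod_cast h5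
    have h8 : (1 : ℝ) ≤ (Δ P : ℝ) := by exact_mod_cast hone P hPX' hB
    have h7 : (M : ℝ) * 1 ≤ M * (Δ P : ℝ) := mul_le_mul_of_nonneg_left h8 (by positivity)
    linarith
  · have h5 := (h1 j).2.2 P hP hB D hD
    rw [Place.reg_iff _ h0] at h5
    have h6 : (0 : ℝ) ≤ (P.ord (ω j D) : ℝ) := by exact_mod_cast h5
    have h8 : (0 : ℝ) ≤ (Δ P : ℝ) := by exact_mod_cast hΔ.1 P hPX'
    have h7 : (0 : ℝ) ≤ M * (Δ P : ℝ) := mul_nonneg (by positivity) h8
    linarith

end Pool.Agent.J6H88.LcSys
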