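import Pool.Agent.J6H88.LcSys.Fam
import Pool.Agent.J6H88.LcSys.Pole
import Pool.Agent.W602.GT.KMain
import Pool.Agent.W602.GT.KAct
import Pool.Agent.W603.GX.Main

/-!
Weak abundance for log canonical pairs over sparse systems.
-/

set_option autoImplicit false

open FF Pool.Agent.W603.LV Pool.Agent.W602.GT Pool.Agent.TH710.ND
open Pool.Agent.Y172 (NormalModel IsPrimeDivisor Effective Integral LogCanonical kodairaDim
  numericalDim)

namespace Pool.Agent.J6H88.LcSys

variable {n : ℕ} {ι : Type} {K : Type} [Field K] [Algebra ℂ K]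

/-- The weights of one-parameter groups from vector fields along the fibres. -/
theorem torus_weights {z : Fin (n + 1) → K} {i0 : Fin (n + 1)} (hi0 : z i0 ≠ 0) {h p : ℕ}
    {t : Fin h → K} {u : Fin p → K} (hbasis : IsTranscendenceBasis ℂ (Sum.elim t u))
    {jj : Fin p → Fin (n + 1)} (hjj : ∀ l, z (jj l) ≠ 0) (hu : ∀ l, u l = z (jj l) / z i0)
    (q : Fin p) : ∃ (D : Derivation ℂ K K) (b : Fin (n + 1) → ℤ), (∀ i, D (t i) = 0) ∧
      b (jj q) ≠ b i0 ∧ (∀ l, l ≠ q → b (jj l) = b i0) ∧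
      ∀ c : Fin (n + 1) → ℤ, ∑ j, (c j : K) * (D (z j) / z j) = 0 → ∑ j, c j * b j = 0 := by
  classical
  have hK : CharZero K := charZero_of_injective_algebraMap (algebraMap ℂ K).injective
  obtain ⟨D, hD⟩ := exists_der (Sum.elim t u) hbasis
    (Sum.elim (fun _ => 0) (fun l => if l = q then u l else 0))
  have hDt : ∀ i, D (t i) = 0 := fun i => hD (Sum.inl i)
  have hDu : ∀ l, D (u l) = if l = q then u l else 0 := fun l => hD (Sum.inr l)
  have hlam : ∀ l, D (z (jj l)) / z (jj l) - D (z i0) / z i0 = if l = q then 1 else 0 := by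
    intro l
    have h1 := hDu l
    rw [hu l] at h1
    have h2 := hjj l
    have h3 : D (z (jj l) / z i0) = (z (jj l) / z i0) *
        (D (z (jj l)) / z (jj l) - D (z i0) / z i0) := by
      rw [div_eq_mul_inv, D.leibniz, D.leibniz_inv]
      simp only [smul_eq_mul]
      field_simp
      ring
    rw [h3] at h1
    have h4 : z (jj l) / z i0 ≠ 0 := div_ne_zero h2 hi0
    apply mul_left_cancel₀ h4
    rw [h1]
    split_ifs <;> ring
  obtain ⟨b, hb1, hb2⟩ := int_weights (fun j => D (z j) / z j) (i := jj q) (i' := i0) (by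
    intro h0
    have h1 := hlam q
    rw [if_pos rfl] at h1
    rw [h0, sub_self] at h1
    exact zero_ne_one h1)
  refine ⟨D, b, hDt, hb1, fun l hl => ?_, hb2⟩
  have h1 := hb2 (fun j => (if j = jj l then 1 else 0) - (if j = i0 then 1 else 0)) (by
    have h2 := hlam l
    rw [if_neg hl] at h2
    simp only [Int.cast_sub, Int.cast_ite, Int.cast_one, Int.cast_zero, sub_mul, ite_mul,
      one_mul, zero_mul, Finset.sum_sub_distrib, Finset.sum_ite_eq', Finset.mem_univ, if_true]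
    exact h2)
  simp only [sub_mul, ite_mul, one_mul, zero_mul, Finset.sum_sub_distrib, Finset.sum_ite_eq',
    Finset.mem_univ, if_true] at h1
  exact sub_eq_zero.1 h1

/-- the weights are independent -/
theorem weights_indep {z : Fin (n + 1) → K} {i0 : Fin (n + 1)} (hi0 : z i0 ≠ 0) {p : ℕ}
    {jj : Fin p → Fin (n + 1)} (hjj : ∀ l, z (jj l) ≠ 0) {b : Fin p → Fin (n + 1) → ℤ}
    (hb1 : ∀ q, b q (jj q) ≠ b q i0) (hb2 : ∀ q l, l ≠ q → b q (jj l) = b q i0)
    (c : Fin p → ℤ) (hc : ∀ j j', z j ≠ 0 → z j' ≠ 0 → ∑ l, c l * b l j = ∑ l, c l * b l j') :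
    c = 0 := by
  funext q
  have h1 := hc (jj q) i0 (hjj q) hi0
  rw [← sub_eq_zero, ← Finset.sum_sub_distrib, Finset.sum_eq_single q] at h1
  · rw [← mul_sub] at h1
    exact (mul_eq_zero.1 h1).resolve_right (sub_ne_zero.2 (hb1 q))
  · intro l _ hl
    rw [hb2 l q hl.symm, sub_self]
  · intro h2
    exact absurd (Finset.mem_univ _) h2

/-- the coordinates generate the function field -/
theorem coords_gen {U : Set (Fin (n + 1))} {F : ι → MvPolynomial (Fin (n + 1)) ℂ} {w : ℕ}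
    {z : Fin (n + 1) → K} (hz : SubVarU U F K w z) {i0 : Fin (n + 1)} (hi0 : z i0 ≠ 0) :
    IntermediateField.adjoin ℂ {v | ∃ j, z j ≠ 0 ∧ v = z j / z i0} = ⊤ := by
  rw [eq_top_iff, ← hz.gen]
  unfold coords
  rw [IntermediateField.adjoin_le_iff]
  rintro _ ⟨i, j, hj, rfl⟩
  have h2 : ∀ l, z l ≠ 0 → z l / z i0 ∈
      IntermediateField.adjoin ℂ {v | ∃ j, z j ≠ 0 ∧ v = z j / z i0} := fun l hl =>
    IntermediateField.subset_adjoin ℂ _ ⟨l, hl, rfl⟩
  by_cases hi : z i = 0
  · rw [hi, zero_div]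
    exact zero_mem _
  · have h3 := div_mem (h2 i hi) (h2 j hj)
    have h4 : z i / z i0 / (z j / z i0) = z i / z j := by field_simp
    rwa [h4] at h3

open scoped Classical in
/-- the ratios of the coordinates, `1` for coordinates which are zero -/
noncomputable def rts (z : Fin (n + 1) → K) (i0 : Fin (n + 1)) (j : Fin (n + 1)) : K :=
  if z j = 0 then 1 else z j / z i0

theorem rts_ne {z : Fin (n + 1) → K} {i0 : Fin (n + 1)} (hi0 : z i0 ≠ 0) (j : Fin (n + 1)) :
    rts z i0 j ≠ 0 := by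
  unfold rts
  split_ifs with h
  · exact one_ne_zero
  · exact div_ne_zero h hi0

theorem rts_gen {U : Set (Fin (n + 1))} {F : ι → MvPolynomial (Fin (n + 1)) ℂ} {w : ℕ}
    {z : Fin (n + 1) → K} (hz : SubVarU U F K w z) {i0 : Fin (n + 1)} (hi0 : z i0 ≠ 0)
    (S : Set K) : IntermediateField.adjoin ℂ (S ∪ Set.range (rts z i0)) = ⊤ := by
  rw [eq_top_iff, ← coords_gen hz hi0]
  refine IntermediateField.adjoin.mono _ _ _ ?_
  rintro _ ⟨j, hj, rfl⟩
  refine Or.inr ⟨j, ?_⟩
  unfold rts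
  rw [if_neg hj]

theorem rts_ord {z : Fin (n + 1) → K} {i0 : Fin (n + 1)} (hi0 : z i0 ≠ 0) {P : Place ℂ K}
    {j : Fin (n + 1)} (h : P.ord (rts z i0 j) ≠ 0) : z j ≠ 0 ∧ P.ord (z j) ≠ P.ord (z i0) := by
  unfold rts at h
  split_ifs at h with h1
  · exact absurd P.ord_one h
  · refine ⟨h1, fun h2 => h ?_⟩
    rw [P.ord_div h1 hi0, h2, sub_self]

/-- the family of one circuit of monomials -/
noncomputable def circ (z : Fin (n + 1) → K) (G : MvPolynomial (Fin (n + 1)) ℂ)
    (C : CD ℂ (gg z G)) : CFam ℂ K :=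
  CFam.single (fun l => C.c l • gg z G (C.e l)) (fun l => smul_ne_zero (C.hc l) (gg_ne _))
    C.rel C.lin

theorem circ_const {z : Fin (n + 1) → K} {G : MvPolynomial (Fin (n + 1)) ℂ}
    {C : CD ℂ (gg z G)} {P : Place ℂ K} (h : (circ z G C).Const P) (a a' : Fin (C.m + 1)) :
    ∑ l, df (C.e a) (C.e a') l * P.ord (z l) = 0 := by
  have h1 := h () a a'
  change P.ord (C.c a • gg z G (C.e a)) = P.ord (C.c a' • gg z G (C.e a')) at h1
  rw [ord_smul' P (C.hc _), ord_smul' P (C.hc _), ← sub_eq_zero, df_ord] at h1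
  exact h1

/-- constant orders, or a jump -/
theorem circ_dich {U : Set (Fin (n + 1))} {z : Fin (n + 1) → K}
    (hzU : ∀ j ∈ U, z j ≠ 0) {G : MvPolynomial (Fin (n + 1)) ℂ} {s M : ℕ}
    (hG : IsPowSparse U s M G) (C : CD ℂ (gg z G)) {P : Place ℂ K} (hP : ¬ OffU U z P) :
    (circ z G C).Const P ∨ ((circ z G C).Jump P M ∧
      ∃ i j, z i ≠ 0 ∧ z j ≠ 0 ∧ P.ord (z i) ≠ P.ord (z j)) := by
  by_cases hc : (circ z G C).Const P
  · exact Or.inl hc
  right
  unfold CFam.Const at hc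
  push Not at hc
  obtain ⟨i1, a, a', h1⟩ := hc
  change P.ord (C.c a • gg z G (C.e a)) ≠ P.ord (C.c a' • gg z G (C.e a')) at h1
  rw [ord_smul' P (C.hc _), ord_smul' P (C.hc _)] at h1
  refine ⟨⟨(), a, a', ?_⟩, ?_⟩
  · change (M : ℤ) ≤ |P.ord (C.c a • gg z G (C.e a)) - P.ord (C.c a' • gg z G (C.e a'))|
    rw [ord_smul' P (C.hc _), ord_smul' P (C.hc _)]
    exact (gg_jump P hzU hP hG le_rfl _ _).resolve_left h1
  · by_contra hcon
    push Not at hcon
    apply h1
    obtain ⟨d, hd⟩ := hG.1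
    rw [← sub_eq_zero, df_ord]
    by_cases hall : ∀ i, z i = 0
    · exact Finset.sum_eq_zero fun l _ => by rw [df_supp _ _ (hall l), zero_mul]
    · push Not at hall
      obtain ⟨i, hi⟩ := hall
      have h2 : ∀ l, df (C.e a) (C.e a') l * P.ord (z l) =
          df (C.e a) (C.e a') l * P.ord (z i) := by
        intro l
        by_cases hl : z l = 0
        · rw [df_supp _ _ hl, zero_mul, zero_mul]
        · rw [hcon l i hl hi]
      rw [Finset.sum_congr rfl fun l _ => h2 l, ← Finset.sum_mul, df_sum hd, zero_mul]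

/-- Through the generic point `z` of the variety `V` passes an affine line
`t ↦ (t ^ b j * z j)`, contained in the quasi-projective variety `{F = 0, x_j ≠ 0 for j in U}`:
the exponents `b j ≥ 0` are zero for `j` in `U`, zero for some and nonzero for other coordinates
which do not vanish on `V`, and the line satisfies the equations. -/
structure AffOrbit (U : Set (Fin (n + 1))) (F : ι → MvPolynomial (Fin (n + 1)) ℂ)
    (z : Fin (n + 1) → K) (b : Fin (n + 1) → ℕ) : Prop where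
  zero : ∀ j ∈ U, b j = 0
  fixed : ∃ j, z j ≠ 0 ∧ b j = 0
  moved : ∃ j, z j ≠ 0 ∧ b j ≠ 0
  mem : ∀ (t : K) (e : ι), val (fun j => t ^ b j * z j) (F e) = 0

/-- The orbit `t ↦ (t ^ b j * z j)` of the generic point `z` under the one-parameter group
`diag (t ^ b j)` satisfies the equations `F = 0`. -/
def InOrbit (F : ι → MvPolynomial (Fin (n + 1)) ℂ) (z : Fin (n + 1) → K)
    (b : Fin (n + 1) → ℤ) : Prop :=
  ∀ t : K, t ≠ 0 → ∀ e, val (fun j => t ^ b j * z j) (F e) = 0

/-- all points of the line -/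
theorem line_mem {z : Fin (n + 1) → K} {b : Fin (n + 1) → ℕ} {G : MvPolynomial (Fin (n + 1)) ℂ}
    (h : ∀ t : K, t ≠ 0 → val (fun j => t ^ b j * z j) G = 0) (t : K) :
    val (fun j => t ^ b j * z j) G = 0 := by
  have hK : CharZero K := charZero_of_injective_algebraMap (algebraMap ℂ K).injective
  have hinf : Infinite K := inferInstance
  obtain ⟨Q, hQ, -⟩ := val_polyK (fun j => (Polynomial.C (z j) * Polynomial.X ^ b j : Polynomial K)) G
  have hP : ∀ s : K, (fun j => (Polynomial.C (z j) * Polynomial.X ^ b j : Polynomial K).eval s) =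
      fun j => s ^ b j * z j := by
    intro s
    funext j
    rw [Polynomial.eval_mul, Polynomial.eval_C, Polynomial.eval_pow, Polynomial.eval_X, mul_comm]
  have h1 : Q = 0 := poly_zero fun s hs => by
    rw [hQ, hP]
    exact h s hs
  have h2 := hQ t
  rw [hP, h1, Polynomial.eval_zero] at h2
  exact h2.symm

/-- the weights of the line -/
noncomputable def wts (z : Fin (n + 1) → K) (P : Place ℂ K) (μ : ℤ) (j : Fin (n + 1)) : ℕ :=
  open scoped Classical in if z j = 0 then 0 else (P.ord (z j) - μ).toNat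

/-- lines from places -/
theorem aff_of_place {U : Set (Fin (n + 1))} {F : ι → MvPolynomial (Fin (n + 1)) ℂ}
    {z : Fin (n + 1) → K} (hzU : ∀ j ∈ U, z j ≠ 0) {P : Place ℂ K} (hP : ¬ OffU U z P)
    {i i' : Fin (n + 1)} (hi : z i ≠ 0) (hi' : z i' ≠ 0) (hne : P.ord (z i) ≠ P.ord (z i'))
    (h : ∀ (μ : ℤ), (∀ j, z j ≠ 0 → μ ≤ P.ord (z j)) → ∀ t : K, t ≠ 0 → ∀ e,
      val (fun j => t ^ wts z P μ j * z j) (F e) = 0) : ∃ b, AffOrbit U F z b := by
  classical
  obtain ⟨j0, hj0, hmin⟩ := Finset.exists_min_image (Finset.univ.filter fun j => z j ≠ 0)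
    (fun j => P.ord (z j)) ⟨i, by simpa using hi⟩
  have hj0' : z j0 ≠ 0 := (Finset.mem_filter.1 hj0).2
  have hmin' : ∀ j, z j ≠ 0 → P.ord (z j0) ≤ P.ord (z j) := fun j hj =>
    hmin j (Finset.mem_filter.2 ⟨Finset.mem_univ _, hj⟩)
  obtain ⟨μ, hμ⟩ : ∃ μ, μ = P.ord (z j0) := ⟨_, rfl⟩
  rw [← hμ] at hmin'
  have hb : ∀ j, z j ≠ 0 → (wts z P μ j : ℤ) = P.ord (z j) - μ := by
    intro j hj
    unfold wts
    rw [if_neg hj]
    exact Int.toNat_of_nonneg (sub_nonneg.2 (hmin' j hj))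
  refine ⟨wts z P μ, fun j hj => ?_, ⟨j0, hj0', ?_⟩, ?_, fun t e =>
    line_mem (fun t ht => h μ hmin' t ht e) t⟩
  · have h1 : P.ord (z j) ≤ μ := by
      unfold OffU at hP
      push Not at hP
      rw [hμ]
      exact hP j hj j0 hj0'
    have h2 := hb j (hzU j hj)
    have h3 := hmin' j (hzU j hj)
    omega
  · have h2 := hb j0 hj0'
    omega
  · by_contra hcon
    push Not at hcon
    apply hne
    have h1 := hb i hi
    have h2 := hb i' hi'
    rw [hcon i hi] at h1
    rw [hcon i' hi'] at h2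
    push_cast at h1 h2
    omega

/-- the circuits of the monomials of a system -/
def CircF (F : ι → MvPolynomial (Fin (n + 1)) ℂ) (z : Fin (n + 1) → K) : CFam ℂ K → Prop :=
  fun A => ∃ (e : ι) (C : CD ℂ (gg z (F e))), A = circ z (F e) C

/-- **Weak abundance for log canonical pairs over sparse systems.** -/
theorem sparse_weak {U : Set (Fin (n + 1))} {F : ι → MvPolynomial (Fin (n + 1)) ℂ}
    {s M : ℕ} (hF : ∀ e, IsPowSparse U s M (F e)) {w : ℕ}
    {z : Fin (n + 1) → K} (hz : SubVarU U F K w z)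
    (hline : ¬ ∃ b, AffOrbit U F z b) {N : ℕ}
    {y : Fin (N + 1) → K} (hy : NormalModel y) {Δ : Place ℂ K → ℚ} (hΔ : Effective y Δ)
    (hLC : LogCanonical y w Δ)
    (hone : ∀ P, IsPrimeDivisor y P → OffU U z P → 1 ≤ Δ P) :
    ∃ (h p : ℕ) (b : Fin p → Fin (n + 1) → ℤ), h + p = w ∧ (∀ l, InOrbit F z (b l)) ∧
      (∀ c : Fin p → ℤ, (∀ j j', z j ≠ 0 → z j' ≠ 0 →
        ∑ l, c l * b l j = ∑ l, c l * b l j') → c = 0) ∧
      ((∀ P, IsPrimeDivisor y P → ¬ OffU U z P →
        (∃ i j, z i ≠ 0 ∧ z j ≠ 0 ∧ P.ord (z i) ≠ P.ord (z j)) →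
        ((h * ((s + 1) * ((s - 1) * (s - 2) / 2)) + 1 : ℕ) : ℚ) * (1 - Δ P) ≤ M) →
      ∃ κ : ℕ, h ≤ κ ∧ (∀ q, KodGe ℂ K w (OffU U z) q → q ≤ κ) ∧
        kodairaDim y w Δ = (κ : WithBot ℕ) ∧
        ∀ A, Effective y A → Integral y A → numericalDim y w Δ A = (κ : EReal)) := by
  classical
  rw [← Pool.Agent.W603.GX.tn_eq]
  have hK : CharZero K := charZero_of_injective_algebraMap (algebraMap ℂ K).injective
  obtain ⟨i0, hi0⟩ := Function.ne_iff.1 hz.ne
  have hi0' : z i0 ≠ 0 := hi0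
  obtain ⟨G, hG⟩ : ∃ G : CFam ℂ K → Prop, ∀ A, G A ↔ CircF F z A := ⟨_, fun _ => Iff.rfl⟩
  obtain ⟨h, p, t, u, hhp, ht, hu, hbasis, hkill⟩ := basis_pick hz.dim (Rat G)
    {v | ∃ j, z j ≠ 0 ∧ v = z j / z i0} (by
      rw [coords_gen hz hi0']
      infer_instance)
  choose jj hjj hujj using hu
  choose D b hDt hb1 hb2 hb3 using fun q => torus_weights hi0' hbasis hjj hujj q
  -- the one-parameter groups
  have hperp : ∀ q (e : ι) (C : CD ℂ (gg z (F e))) (a a' : Fin (C.m + 1)),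
      ∑ l, df (C.e a) (C.e a') l * b q l = 0 := by
    intro q e C a a'
    apply hb3 q
    have h1 := hkill (D q) (hDt q) _ ⟨circ z (F e) C, (hG _).2 ⟨e, C, rfl⟩, (), a, a', rfl⟩
    change D q ((C.c a • gg z (F e) (C.e a)) / (C.c a' • gg z (F e) (C.e a'))) = 0 at h1
    have h2 := df_der (D q) (C.e a) (C.e a')
    have hga := gg_ne (C.e a)
    have hgb := gg_ne (C.e a')
    have hca : algebraMap ℂ K (C.c a) ≠ 0 := by
      rw [Ne, map_eq_zero]; exact C.hc _
    have hcb : algebraMap ℂ K (C.c a') ≠ 0 := by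
      rw [Ne, map_eq_zero]; exact C.hc _
    have h3 : D q (gg z (F e) (C.e a)) * gg z (F e) (C.e a') -
        gg z (F e) (C.e a) * D q (gg z (F e) (C.e a')) = 0 := by
      rw [Algebra.smul_def, Algebra.smul_def, div_eq_mul_inv, (D q).leibniz, (D q).leibniz_inv,
        (D q).leibniz, (D q).leibniz, (D q).map_algebraMap, (D q).map_algebraMap] at h1
      simp only [smul_eq_mul, mul_zero, add_zero] at h1
      field_simp at h1
      rw [mul_zero] at h1
      have h2 := (mul_eq_zero.1 h1).resolve_left hca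
      linear_combination h2
    rw [h3] at h2
    exact (mul_eq_zero.1 h2.symm).resolve_left (mul_ne_zero hga hgb)
  refine ⟨h, p, b, hhp, fun l t ht e => val_orbit (L := K) z (b l) ht (F e) fun v =>
    wc_zero (hz.mem e) (fun C c c' => hperp l e C c c') v,
    fun c hc => weights_indep hi0' hjj hb1 hb2 c hc, fun horb => ?_⟩
  -- the invariants of the pair
  have hd := (fld_of_kill G ht (hbasis.1.comp Sum.inl Sum.inl_injective) hkill).2.2
  have hcard : ∀ A, G A → @Fintype.card A.I A.fin ≤ 1 := by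
    intro A hA
    obtain ⟨e, C, rfl⟩ := (hG A).1 hA
    exact le_of_eq rfl
  have hsz : ∀ A, G A → ∀ i, A.m i + 1 ≤ s := by
    intro A hA i
    obtain ⟨e, C, rfl⟩ := (hG A).1 hA
    change C.m + 1 ≤ s
    have h4 := Fintype.card_le_of_injective _ C.he
    simp only [Fintype.card_fin] at h4
    exact (h4.trans (gg_card _ _)).trans (hF _).2.1
  have hB : h * (1 * ((s + 1) * tn (s - 1))) + 1 ≤ h * ((s + 1) * tn (s - 1)) + 1 := by
    rw [one_mul]
  have hJ : ∀ P, IsPrimeDivisor y P → ∀ A, G A → A.Const P ∨ ∃ J : ℕ, A.Jump P J ∧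
      ((h * ((s + 1) * tn (s - 1)) + 1 : ℕ) : ℚ) * (1 - Δ P) ≤ J := by
    intro P hP A hA
    obtain ⟨e, C, rfl⟩ := (hG A).1 hA
    by_cases hoff : OffU U z P
    · by_cases hc : (circ z (F e) C).Const P
      · exact Or.inl hc
      right
      have hc' := hc
      unfold CFam.Const at hc'
      push Not at hc'
      obtain ⟨i, a, a', h0⟩ := hc'
      refine ⟨0, ⟨i, a, a', by simp⟩, ?_⟩
      have h4 := hone P hP hoff
      rw [Nat.cast_zero]
      exact mul_nonpos_of_nonneg_of_nonpos (Nat.cast_nonneg _) (by linarith)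
    · rcases circ_dich hz.unit (hF e) C hoff with h4 | ⟨h4, h5⟩
      · exact Or.inl h4
      · exact Or.inr ⟨M, h4, horb P hP hoff h5⟩
  obtain ⟨κ, h1, h2, h3⟩ := fam_weak hy hz.dim hΔ hLC G hcard hsz hd hB hJ (rts_ne hi0')
    (rts_gen hz hi0' _) (by
    rintro P hP htriv ⟨j, hj⟩
    by_cases hoff : OffU U z P
    · exact hone P hP hoff
    · exfalso
      obtain ⟨hj1, hj2⟩ := rts_ord hi0' hj
      refine hline (aff_of_place hz.unit hoff hj1 hi0' hj2 fun μ hμ t ht e => ?_)
      have h1 := val_orbit (L := K) z (fun j => (wts z P μ j : ℤ)) ht (F e) fun v =>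
        wc_zero (hz.mem e) (fun C a a' => by
          obtain ⟨d, hd⟩ := (hF e).1
          have h1 : ∀ l, df (C.e a) (C.e a') l * (wts z P μ l : ℤ) =
              df (C.e a) (C.e a') l * P.ord (z l) - df (C.e a) (C.e a') l * μ := by
            intro l
            by_cases hl : z l = 0
            · rw [df_supp _ _ hl]
              ring
            · unfold wts
              rw [if_neg hl, Int.toNat_of_nonneg (sub_nonneg.2 (hμ l hl))]
              ring
          rw [Finset.sum_congr rfl fun l _ => h1 l, Finset.sum_sub_distrib,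
            circ_const (const_of_triv htriv ((hG _).2 ⟨e, C, rfl⟩)) a a',
            ← Finset.sum_mul, df_sum hd, zero_mul, sub_zero]) v
      simpa only [zpow_natCast] using h1)
  exact ⟨κ, h1, fun q hq => h2 q (kodaira_of_kod hΔ hone hq), h3⟩

end Pool.Agent.J6H88.LcSys
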