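import Pool.Agent.TH710.ND.Core

/-!
Wronskians along a derivation which is a multiple of another one on a subset.
-/

set_option autoImplicit false

open FF Pool.Agent.W603.LV Pool.Agent.W602.GT Pool.Agent.TH710.ND

namespace Pool.Agent.J6H88.LcSys

variable {k K : Type} [Field k] [Field K] [Algebra k K]

/-- coefficients of `E ^ r` with respect to the powers of `D`, if `E = a D` on a stable set -/
noncomputable def rc (E : Derivation k K K) (a : K) : ℕ → ℕ → K
  | 0, 0 => 1
  | 0, _ + 1 => 0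
  | r + 1, 0 => E (rc E a r 0)
  | r + 1, i + 1 => E (rc E a r (i + 1)) + a * rc E a r i

theorem rc_zero (E : Derivation k K K) (a : K) (r : ℕ) : ∀ i, r < i → rc E a r i = 0 := by
  induction r with
  | zero =>
    intro i hi
    obtain ⟨j, rfl⟩ : ∃ j, i = j + 1 := ⟨i - 1, by omega⟩
    rfl
  | succ r ih =>
    intro i hi
    obtain ⟨j, rfl⟩ : ∃ j, i = j + 1 := ⟨i - 1, by omega⟩
    change E (rc E a r (j + 1)) + a * rc E a r j = 0
    rw [ih _ (by omega), ih _ (by omega)]; simp

theorem rc_diag (E : Derivation k K K) (a : K) (r : ℕ) : rc E a r r = a ^ r := by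
  induction r with
  | zero => simp [rc]
  | succ r ih =>
    change E (rc E a r (r + 1)) + a * rc E a r r = _
    rw [rc_zero _ _ _ _ (by omega), ih]; simp; ring

theorem iter_mem {D : Derivation k K K} {S : Set K} (hS : ∀ f ∈ S, D f ∈ S) {g : K} (hg : g ∈ S)
    (i : ℕ) : (⇑D)^[i] g ∈ S := by
  induction i with
  | zero => exact hg
  | succ i ih =>
    rw [Function.iterate_succ_apply']
    exact hS _ ih

theorem rc_spec {E D : Derivation k K K} {a : K} {S : Set K} (hS : ∀ f ∈ S, D f ∈ S)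
    (hE : ∀ f ∈ S, E f = a * D f) {g : K} (hg : g ∈ S) (m : ℕ) (r : ℕ) (hr : r < m) :
    (⇑E)^[r] g = ∑ i ∈ Finset.range m, rc E a r i * (⇑D)^[i] g := by
  induction r with
  | zero =>
    rw [Finset.sum_eq_single 0]
    · change g = 1 * g
      rw [one_mul]
    · intro i _ hi
      rw [rc_zero _ _ _ _ (by omega)]; simp
    · intro h
      exact absurd (Finset.mem_range.2 hr) h
  | succ r ih =>
    rw [Function.iterate_succ_apply', ih (by omega), map_sum]
    have h1 : ∀ i ∈ Finset.range m, E (rc E a r i * (⇑D)^[i] g) =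
        E (rc E a r i) * (⇑D)^[i] g + a * rc E a r i * (⇑D)^[i + 1] g := by
      intro i _
      rw [E.leibniz, hE _ (iter_mem hS hg i), Function.iterate_succ_apply']
      simp only [smul_eq_mul]; ring
    rw [Finset.sum_congr rfl h1, Finset.sum_add_distrib]
    obtain ⟨q, rfl⟩ : ∃ q, m = q + 1 := ⟨m - 1, by omega⟩
    rw [Finset.sum_range_succ' (fun i => rc E a (r + 1) i * (⇑D)^[i] g)]
    rw [Finset.sum_range_succ' (fun i => E (rc E a r i) * (⇑D)^[i] g)]
    rw [Finset.sum_range_succ (fun i => a * rc E a r i * (⇑D)^[i + 1] g)]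
    rw [rc_zero _ _ _ q (by omega)]
    have h2 : ∀ i, rc E a (r + 1) (i + 1) = E (rc E a r (i + 1)) + a * rc E a r i :=
      fun i => rfl
    have h3 : rc E a (r + 1) 0 = E (rc E a r 0) := rfl
    simp only [h2, h3, mul_zero, zero_mul, add_zero]
    rw [add_right_comm, ← Finset.sum_add_distrib]
    congr 1
    exact Finset.sum_congr rfl fun i _ => by ring

theorem wr_rel {E D : Derivation k K K} {a : K} {S : Set K} (hS : ∀ f ∈ S, D f ∈ S)
    (hE : ∀ f ∈ S, E f = a * D f) {m : ℕ} {g : Fin m → K} (hg : ∀ i, g i ∈ S) :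
    wr E g = a ^ tn m * wr D g := by
  have h1 : wm (n := m) E g = wm (n := m) D g * Matrix.of (fun s r : Fin m => rc E a r s) := by
    ext i r
    rw [Matrix.mul_apply]
    change (⇑E)^[(r : ℕ)] (g i) = ∑ s : Fin m, (⇑D)^[(s : ℕ)] (g i) * rc E a r s
    rw [rc_spec hS hE (hg i) m r r.2, Finset.sum_range]
    exact Finset.sum_congr rfl fun s _ => by ring
  unfold wr
  rw [h1, Matrix.det_mul, mul_comm]
  congr 1
  rw [Matrix.det_of_isUpperTriangular]
  · unfold tn
    rw [← Finset.prod_pow_eq_pow_sum]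
    refine Finset.prod_congr rfl fun r _ => ?_
    exact rc_diag E a r
  · intro s r hrs
    exact rc_zero _ _ _ _ hrs

theorem eta_rel {E D : Derivation k K K} {a : K} {S : Set K} (hS : ∀ f ∈ S, D f ∈ S)
    (hE : ∀ f ∈ S, E f = a * D f) {m : ℕ} {T : Fin (m + 1) → K} (hT : ∀ i, T i ∈ S) :
    eta E T = a ^ tn m * eta D T := by
  unfold eta
  rw [wr_rel hS hE fun l => hT _, mul_div_assoc]

theorem GI_rel {E D : Derivation k K K} {a : K} {S : Set K} (hS : ∀ f ∈ S, D f ∈ S)
    (hE : ∀ f ∈ S, E f = a * D f) {I : Type} [Fintype I] {m : I → ℕ}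
    {T : ∀ i, Fin (m i + 1) → K} (hT : ∀ i j, T i j ∈ S) (x : I → K) :
    GI T E x = a ^ (wtI m) * GI T D x := by
  unfold GI wtI
  rw [← Finset.prod_pow_eq_pow_sum, ← Finset.prod_mul_distrib]
  refine Finset.prod_congr rfl fun i _ => ?_
  rw [eta_rel hS hE (hT i), mul_pow, ← pow_mul, mul_comm (m i + 2)]
  ring

end Pool.Agent.J6H88.LcSys
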